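import Pool.Agent.Lib.MP_7de92b_lc.Ar

section

/-!
# The rule system, the fixed point tree and the sentence
-/

set_option autoImplicit false
set_option linter.unusedSectionVars false

namespace Pool.Agent.Lib.MP_7de92b_lc

section raw

variable {N : Type} [Zero N] [One N] [Add N] [Mul N] [LT N]

/-- Numerals. -/
def num : ℕ → N
  | 0 => 0
  | n + 1 => num n + 1

/-- The sequence `s` with the new last entry `e`; the empty sequence is `0`. -/
def nx (s e : N) : N := pr s e + 1

/-- `B` codes the relation that `t` is an ancestor of `s` (or `t = s`). -/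
def AncRec (B : Set N) : Prop :=
  ∀ t s : N, pr t s ∈ B ↔ t = s ∨ ∃ s' e : N, s = nx s' e ∧ pr t s' ∈ B

/-- `pr z v` is an entry of the sequence `s`. -/
def Ent (B : Set N) (s z v : N) : Prop := ∃ t : N, pr (nx t (pr z v)) s ∈ B

/-- `n` is the index of the next entry of the sequence `s`. -/
def Nxt (s n : N) : Prop := (s = 0 ∧ n = 0) ∨ ∃ t z v : N, s = nx t (pr z v) ∧ n = z + 1

/-- `s` is a sequence whose entries are `pr 0 _, pr 1 _, …`. -/
def Good (B : Set N) (s : N) : Prop :=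
  pr 0 s ∈ B ∧ ∀ t e : N, pr (nx t e) s ∈ B → ∃ z v : N, e = pr z v ∧ Nxt t z

/-- The unary operations of the closed families: `x` is in the new set iff `DR l x y` for some
`y` outside the old set. -/
def DR (l x y : N) : Prop :=
  ((∃ c, l = pr (num 0) c) ∧ ∃ b, x = pr b y) ∨
  ((∃ c, l = pr (num 1) c) ∧ ∃ u b e, x = pr u (pr b e) ∧ y = pr u e) ∨
  ((∃ c, l = pr (num 2) c) ∧ ∃ e, x = pr y e) ∨
  (∃ c, l = pr (num 3) c ∧ y = pr x c) ∨
  ((∃ c, l = pr (num 4) c) ∧ ∃ a, y = pr a x)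

/-- The basic sets of the closed families. -/
def KR (l x : N) : Prop :=
  ((∃ c, l = pr (num 6) c) ∧ ∃ u e, x = pr u (pr u e)) ∨
  (∃ c e, l = pr (num 7) c ∧ x = pr c e) ∨
  ((∃ c, l = pr (num 8) c) ∧ ∃ a b e, x = pr a (pr b (pr (a + b) e))) ∨
  ((∃ c, l = pr (num 9) c) ∧ ∃ a b e, x = pr a (pr b (pr (a * b) e))) ∨
  ((∃ c, l = pr (num 10) c) ∧ ∃ a b e, x = pr a (pr b e) ∧ a < b)

/-- The moves of the position `pr x k` of a closed family: `x` is in section `k` iff some `u`
with `OM k x u` is not in the family. -/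
def OM (k x u : N) : Prop :=
  ∃ l i j : N, k = pr (num 2) (pr l (pr i j)) ∧
    ((∃ y, DR l x y ∧ u = pr y i) ∨
      ((∃ c, l = pr (num 5) c) ∧ (u = pr x i ∨ u = pr x j)) ∨
      (KR l x ∧ u = 0))

/-- `γ` precedes `β`, where `0` codes the bottom and `b + 1` codes the node `b` of the tree
`sec P 1`; extensions precede. -/
def Prec (P : Set N) (γ β : N) : Prop :=
  ∃ b, β = b + 1 ∧ pr b (num 1) ∈ P ∧
    (γ = 0 ∨ ∃ c, γ = c + 1 ∧ pr c (num 1) ∈ P ∧ pr (pr b c) (num 2) ∈ P ∧ b ≠ c)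

/-- The moves in a hierarchy along the tree. -/
def HM (P : Set N) (x p : N) : Prop :=
  ∃ y k b : N, x = pr (pr y k) (b + 1) ∧ pr b (num 1) ∈ P ∧
    ((∃ γ, k = pr (num 1) γ ∧ Prec P γ (b + 1) ∧ p = pr y γ) ∨ ∃ u, OM k y u ∧ p = pr u (b + 1))

/-- `Z` is the hierarchy along the tree `sec P 1` over the base `Y`. -/
def HierEq (Z P Y : Set N) : Prop :=
  ∀ x : N, x ∈ Z ↔ (∃ x', x = pr x' 0 ∧ x' ∉ Y) ∨ ∃ p, HM P x p ∧ p ∉ Z

/-- The moves of the whole rule system. -/
def RM (P : Set N) (z p : N) : Prop :=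
  ∃ x k : N, z = pr x k ∧
    ((k = pr (num 1) 0 ∧ x ∈ P ∧ p = 0) ∨ OM k x p ∨
      ∃ i, k = pr (num 3) i ∧
        ((∃ x', x = pr x' 0 ∧ p = pr x' i) ∨ ∃ p', HM P x p' ∧ p = pr p' k))

/-- `S` is a solution of the rule system. -/
def Sol (P S : Set N) : Prop := ∀ z : N, z ∈ S ↔ ∃ p, RM P z p ∧ p ∉ S

/-- `s` is a finite attempt at a solution. -/
def TC (P : Set N) (s : N) : Prop :=
  Good (sec P (num 2)) s ∧ ∀ z v : N, Ent (sec P (num 2)) s z v →
    (v = 0 → ∀ p, RM P z p → ¬ Ent (sec P (num 2)) s p 0) ∧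
    (∀ p, v = p + 1 → RM P z p ∧ ∀ v', Ent (sec P (num 2)) s p v' → v' = 0)

/-- The fixed point equation: `sec P 2` is the ancestor relation and `sec P 1` is the tree of
attempts. -/
def FP (P : Set N) : Prop :=
  AncRec (sec P (num 2)) ∧ ∀ s : N, s ∈ sec P (num 1) ↔ TC P s

/-- Families closed under the basic operations. -/
structure ClosedFam (𝒞 : Set (Set N)) : Prop where
  nand : ∀ X ∈ 𝒞, ∀ Y ∈ 𝒞, {x : N | x ∉ X ∨ x ∉ Y} ∈ 𝒞
  weak : ∀ X ∈ 𝒞, {x : N | ∃ b y, x = pr b y ∧ y ∉ X} ∈ 𝒞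
  drop : ∀ X ∈ 𝒞, {x : N | ∃ u b e, x = pr u (pr b e) ∧ pr u e ∉ X} ∈ 𝒞
  memb : ∀ X ∈ 𝒞, {x : N | ∃ y e, x = pr y e ∧ y ∉ X} ∈ 𝒞
  secn : ∀ X ∈ 𝒞, ∀ c : N, {x : N | pr x c ∉ X} ∈ 𝒞
  coproj : ∀ X ∈ 𝒞, {x : N | ∃ a, pr a x ∉ X} ∈ 𝒞
  keq : {x : N | ∃ u e, x = pr u (pr u e)} ∈ 𝒞
  kconst : ∀ c : N, {x : N | ∃ e, x = pr c e} ∈ 𝒞
  kadd : {x : N | ∃ a b e, x = pr a (pr b (pr (a + b) e))} ∈ 𝒞
  kmul : {x : N | ∃ a b e, x = pr a (pr b (pr (a * b) e))} ∈ 𝒞
  klt : {x : N | ∃ a b e, x = pr a (pr b e) ∧ a < b} ∈ 𝒞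

/-- A path through the tree `T`. -/
def IsPath (T : Set N) (d : N → N) : Prop :=
  d 0 = 0 ∧ (∀ n, ∃ v, d (n + 1) = nx (d n) (pr n v)) ∧ ∀ n, d n ∈ T

/-- The Kleene-Brouwer order on sequences. -/
def KBlt (B : Set N) (s t : N) : Prop :=
  (pr t s ∈ B ∧ t ≠ s) ∨ ∃ u a a' : N, a < a' ∧ pr (nx u a) s ∈ B ∧ pr (nx u a') t ∈ B

/-- bottom or node of the tree -/
def KF (P : Set N) (β : N) : Prop := β = 0 ∨ ∃ b, β = b + 1 ∧ pr b (num 1) ∈ P

/-- strict order on bottom and nodes -/
def KL (P : Set N) (β γ : N) : Prop :=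
  (β = 0 ∧ γ ≠ 0) ∨ ∃ b c, β = b + 1 ∧ γ = c + 1 ∧ KBlt (sec P (num 2)) b c

/-- The Kleene-Brouwer order of the tree with a new bottom. -/
def kbW (P : Set N) : Set N :=
  {w | ∃ β γ, w = pr β γ ∧ KF P β ∧ KF P γ ∧ (β = γ ∨ KL P β γ)}

/-- The natural order of the numbers. -/
def natW : Set N := {w | ∃ a b, w = pr a b ∧ (a < b ∨ a = b)}

/-- The lexicographic product. -/
def lexW (W W' : Set N) : Set N :=
  {w | ∃ a b a' b' : N, w = pr (pr a b) (pr a' b') ∧ b ∈ fld W' ∧ b' ∈ fld W' ∧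
    (wlt W a a' ∨ (a = a' ∧ a ∈ fld W ∧ pr b b' ∈ W'))}

end raw

/-! ### models of arithmetic as ordered semirings -/

/-- The discrete ordered semirings. -/
class Ari (N : Type) [CommSemiring N] [LinearOrder N] [IsStrictOrderedRing N] : Prop where
  zero_le' : ∀ x : N, 0 ≤ x
  lt_succ' : ∀ x y : N, x < y + 1 ↔ x ≤ y
  zero_or_succ' : ∀ x : N, x = 0 ∨ ∃ y, x = y + 1

section ari

variable {N : Type} [CommSemiring N] [LinearOrder N] [IsStrictOrderedRing N]

/-- Induction and arithmetical comprehension. -/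
structure Mod (𝒮 : Set (Set N)) : Prop where
  ne : 𝒮.Nonempty
  ind : ∀ X ∈ 𝒮, (0 : N) ∈ X → (∀ n : N, n ∈ X → n + 1 ∈ X) → ∀ n : N, n ∈ X
  comp : ∀ {R : (ℕ → N) → Set N → Prop}, Ar 𝒮 R → ∀ (v : ℕ → N), ∀ X ∈ 𝒮,
    {x : N | R (cons x v) X} ∈ 𝒮

end ari

end Pool.Agent.Lib.MP_7de92b_lc
end

section

/-!
# Uniform definability of the basic predicates by arithmetical formulas
-/

set_option autoImplicit false
set_option linter.unusedSectionVars false
set_option linter.unusedSimpArgs false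

namespace Pool.Agent.Lib.MP_7de92b_lc

/-- A type with the operations of arithmetic. -/
structure RS where
  /-- the numbers -/
  N : Type
  z : Zero N
  o : One N
  a : Add N
  m : Mul N
  l : LT N

instance (M : RS) : Zero M.N := M.z
instance (M : RS) : One M.N := M.o
instance (M : RS) : Add M.N := M.a
instance (M : RS) : Mul M.N := M.m
instance (M : RS) : LT M.N := M.l

/-- `t` is uniformly given by a term with `n` variables. -/
def UT (n : ℕ) (t : ∀ M : RS, (ℕ → M.N) → M.N) : Prop :=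
  ∃ τ : Tm n, ∀ (M : RS) (v : ℕ → M.N), τ.eval (fun i : Fin n => v i) = t M v

/-- `R` is uniformly given by an arithmetical formula with `n` number variables and `m` set
variables. -/
def U (n m : ℕ) (R : ∀ M : RS, (ℕ → M.N) → (ℕ → Set M.N) → Prop) : Prop :=
  ∃ φ : Fml n m, φ.Arith ∧ ∀ (M : RS) (𝒯 : Set (Set M.N)) (v : ℕ → M.N) (V : ℕ → Set M.N),
    φ.Sat 𝒯 (fun i : Fin n => v i) (fun j : Fin m => V j) ↔ R M v V

variable {n m : ℕ}

lemma UT.var {i : ℕ} (h : i < n) : UT n (fun _ v => v i) := ⟨.var ⟨i, h⟩, fun _ _ => rfl⟩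
lemma UT.zero : UT n (fun _ _ => 0) := ⟨.zero, fun _ _ => rfl⟩
lemma UT.one : UT n (fun _ _ => 1) := ⟨.one, fun _ _ => rfl⟩

lemma UT.add {s t : ∀ M : RS, (ℕ → M.N) → M.N} (hs : UT n s) (ht : UT n t) :
    UT n (fun M v => s M v + t M v) := by
  obtain ⟨σ, hσ⟩ := hs
  obtain ⟨τ, hτ⟩ := ht
  exact ⟨.add σ τ, fun M v => by simp only [Tm.eval, hσ, hτ]⟩

lemma UT.mul {s t : ∀ M : RS, (ℕ → M.N) → M.N} (hs : UT n s) (ht : UT n t) :
    UT n (fun M v => s M v * t M v) := by
  obtain ⟨σ, hσ⟩ := hs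
  obtain ⟨τ, hτ⟩ := ht
  exact ⟨.mul σ τ, fun M v => by simp only [Tm.eval, hσ, hτ]⟩

lemma UT.pr {s t : ∀ M : RS, (ℕ → M.N) → M.N} (hs : UT n s) (ht : UT n t) :
    UT n (fun M v => pr (s M v) (t M v)) :=
  (((hs.add ht).mul (hs.add ht)).add hs)

lemma UT.nx {s t : ∀ M : RS, (ℕ → M.N) → M.N} (hs : UT n s) (ht : UT n t) :
    UT n (fun M v => nx (s M v) (t M v)) :=
  (hs.pr ht).add .one

lemma UT.num (k : ℕ) : UT n (fun _ _ => num k) := by
  induction k with
  | zero => exact .zero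
  | succ k ih => exact ih.add .one

lemma U.eq {s t : ∀ M : RS, (ℕ → M.N) → M.N} (hs : UT n s) (ht : UT n t) :
    U n m (fun M v _ => s M v = t M v) := by
  obtain ⟨σ, hσ⟩ := hs
  obtain ⟨τ, hτ⟩ := ht
  exact ⟨.eq σ τ, trivial, fun M 𝒯 v V => by simp only [Fml.Sat, hσ, hτ]⟩

lemma U.lt {s t : ∀ M : RS, (ℕ → M.N) → M.N} (hs : UT n s) (ht : UT n t) :
    U n m (fun M v _ => s M v < t M v) := by
  obtain ⟨σ, hσ⟩ := hs
  obtain ⟨τ, hτ⟩ := ht
  exact ⟨.lt σ τ, trivial, fun M 𝒯 v V => by simp only [Fml.Sat, hσ, hτ]⟩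

lemma U.mem {t : ∀ M : RS, (ℕ → M.N) → M.N} {j : ℕ} (hj : j < m) (ht : UT n t) :
    U n m (fun M v V => t M v ∈ V j) := by
  obtain ⟨τ, hτ⟩ := ht
  exact ⟨.mem τ ⟨j, hj⟩, trivial, fun M 𝒯 v V => by simp only [Fml.Sat, hτ]⟩

lemma U.not {R : ∀ M : RS, (ℕ → M.N) → (ℕ → Set M.N) → Prop} (h : U n m R) :
    U n m (fun M v V => ¬ R M v V) := by
  obtain ⟨φ, ha, hs⟩ := h
  exact ⟨.neg φ, ha, fun M 𝒯 v V => by simp only [Fml.Sat, hs]⟩

lemma U.and {R R' : ∀ M : RS, (ℕ → M.N) → (ℕ → Set M.N) → Prop} (h : U n m R) (h' : U n m R') :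
    U n m (fun M v V => R M v V ∧ R' M v V) := by
  obtain ⟨φ, ha, hs⟩ := h
  obtain ⟨φ', ha', hs'⟩ := h'
  exact ⟨.and φ φ', ⟨ha, ha'⟩, fun M 𝒯 v V => by simp only [Fml.Sat, hs, hs']⟩

lemma U.congr {R R' : ∀ M : RS, (ℕ → M.N) → (ℕ → Set M.N) → Prop} (h : U n m R)
    (e : ∀ M v V, R M v V ↔ R' M v V) : U n m R' := by
  obtain ⟨φ, ha, hs⟩ := h
  exact ⟨φ, ha, fun M 𝒯 v V => (hs M 𝒯 v V).trans (e M v V)⟩

lemma U.or {R R' : ∀ M : RS, (ℕ → M.N) → (ℕ → Set M.N) → Prop} (h : U n m R) (h' : U n m R') :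
    U n m (fun M v V => R M v V ∨ R' M v V) :=
  (h.not.and h'.not).not.congr fun M v V => by tauto

lemma U.imp {R R' : ∀ M : RS, (ℕ → M.N) → (ℕ → Set M.N) → Prop} (h : U n m R) (h' : U n m R') :
    U n m (fun M v V => R M v V → R' M v V) :=
  (h.and h'.not).not.congr fun M v V => by tauto

lemma U.iff {R R' : ∀ M : RS, (ℕ → M.N) → (ℕ → Set M.N) → Prop} (h : U n m R) (h' : U n m R') :
    U n m (fun M v V => (R M v V ↔ R' M v V)) :=
  ((h.imp h').and (h'.imp h)).congr fun M v V => by tauto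

lemma U.ex {P : ∀ M : RS, (ℕ → M.N) → (ℕ → Set M.N) → M.N → Prop}
    (h : U (n + 1) m (fun M w V => P M (fun i => w (i + 1)) V (w 0))) :
    U n m (fun M v V => ∃ a, P M v V a) := by
  obtain ⟨φ, ha, hs⟩ := h
  refine ⟨.exN φ, ha, fun M 𝒯 v V => ?_⟩
  simp only [Fml.Sat]
  refine exists_congr fun a => ?_
  have e : (Fin.cons a (fun i : Fin n => v i) : Fin (n + 1) → M.N) =
      fun i : Fin (n + 1) => cons a v i := by
    funext i
    refine Fin.cases ?_ (fun j => ?_) i <;> rfl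
  rw [e]
  exact hs M 𝒯 (cons a v) V

lemma U.all {P : ∀ M : RS, (ℕ → M.N) → (ℕ → Set M.N) → M.N → Prop}
    (h : U (n + 1) m (fun M w V => P M (fun i => w (i + 1)) V (w 0))) :
    U n m (fun M v V => ∀ a, P M v V a) :=
  (U.ex (P := fun M v V a => ¬ P M v V a) h.not).not.congr fun M v V => by simp

/-! ### the basic predicates -/

lemma u_OM : U 3 0 (fun _ v _ => OM (v 0) (v 1) (v 2)) := by
  unfold OM DR KR
  repeat' first
    | apply U.ex | apply U.all | apply U.and | apply U.or | apply U.iff | apply U.not | apply U.eq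
    | apply U.lt | apply U.mem | apply U.imp
    | apply UT.nx | apply UT.pr | apply UT.num | apply UT.add | apply UT.mul | apply UT.zero
    | apply UT.one | apply UT.var
  all_goals norm_num

lemma u_Ent : U 3 1 (fun _ v V => Ent (V 0) (v 0) (v 1) (v 2)) := by
  unfold Ent
  repeat' first
    | apply U.ex | apply U.all | apply U.and | apply U.or | apply U.iff | apply U.not | apply U.eq
    | apply U.lt | apply U.mem | apply U.imp
    | apply UT.nx | apply UT.pr | apply UT.num | apply UT.add | apply UT.mul | apply UT.zero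
    | apply UT.one | apply UT.var
  all_goals norm_num

lemma u_Nxt : U 2 0 (fun _ v _ => Nxt (v 0) (v 1)) := by
  unfold Nxt
  repeat' first
    | apply U.ex | apply U.all | apply U.and | apply U.or | apply U.iff | apply U.not | apply U.eq
    | apply U.lt | apply U.mem | apply U.imp
    | apply UT.nx | apply UT.pr | apply UT.num | apply UT.add | apply UT.mul | apply UT.zero
    | apply UT.one | apply UT.var
  all_goals norm_num

lemma u_Good : U 1 1 (fun _ v V => Good (V 0) (v 0)) := by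
  unfold Good Nxt
  repeat' first
    | apply U.ex | apply U.all | apply U.and | apply U.or | apply U.iff | apply U.not | apply U.eq
    | apply U.lt | apply U.mem | apply U.imp
    | apply UT.nx | apply UT.pr | apply UT.num | apply UT.add | apply UT.mul | apply UT.zero
    | apply UT.one | apply UT.var
  all_goals norm_num

lemma u_Prec : U 2 1 (fun _ v V => Prec (V 0) (v 0) (v 1)) := by
  unfold Prec
  repeat' first
    | apply U.ex | apply U.all | apply U.and | apply U.or | apply U.iff | apply U.not | apply U.eq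
    | apply U.lt | apply U.mem | apply U.imp
    | apply UT.nx | apply UT.pr | apply UT.num | apply UT.add | apply UT.mul | apply UT.zero
    | apply UT.one | apply UT.var
  all_goals norm_num

lemma u_HM : U 2 1 (fun _ v V => HM (V 0) (v 0) (v 1)) := by
  unfold HM OM DR KR Prec
  repeat' first
    | apply U.ex | apply U.all | apply U.and | apply U.or | apply U.iff | apply U.not | apply U.eq
    | apply U.lt | apply U.mem | apply U.imp
    | apply UT.nx | apply UT.pr | apply UT.num | apply UT.add | apply UT.mul | apply UT.zero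
    | apply UT.one | apply UT.var
  all_goals norm_num

lemma u_RM : U 2 1 (fun _ v V => RM (V 0) (v 0) (v 1)) := by
  unfold RM HM OM DR KR Prec
  repeat' first
    | apply U.ex | apply U.all | apply U.and | apply U.or | apply U.iff | apply U.not | apply U.eq
    | apply U.lt | apply U.mem | apply U.imp
    | apply UT.nx | apply UT.pr | apply UT.num | apply UT.add | apply UT.mul | apply UT.zero
    | apply UT.one | apply UT.var
  all_goals norm_num

lemma u_KBlt : U 2 1 (fun _ v V => KBlt (V 0) (v 0) (v 1)) := by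
  unfold KBlt
  repeat' first
    | apply U.ex | apply U.all | apply U.and | apply U.or | apply U.iff | apply U.not | apply U.eq
    | apply U.lt | apply U.mem | apply U.imp
    | apply UT.nx | apply UT.pr | apply UT.num | apply UT.add | apply UT.mul | apply UT.zero
    | apply UT.one | apply UT.var
  all_goals norm_num

lemma mem_sec {N : Type} [Zero N] [One N] [Add N] [Mul N] [LT N] {C : Set N} {k x : N} :
    x ∈ sec C k ↔ pr x k ∈ C := Iff.rfl

lemma u_HierEq : U 0 3 (fun _ _ V => HierEq (V 0) (V 1) (V 2)) := by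
  simp only [HierEq, HM, OM, DR, KR, Prec, mem_sec]
  repeat' first
    | apply U.ex | apply U.all | apply U.and | apply U.or | apply U.iff | apply U.not | apply U.eq
    | apply U.lt | apply U.mem | apply U.imp
    | apply UT.nx | apply UT.pr | apply UT.num | apply UT.add | apply UT.mul | apply UT.zero
    | apply UT.one | apply UT.var
  all_goals norm_num

lemma u_TC : U 1 1 (fun _ v V => TC (V 0) (v 0)) := by
  simp only [TC, Good, Nxt, Ent, RM, HM, OM, DR, KR, Prec, mem_sec]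
  repeat' first
    | apply U.ex | apply U.all | apply U.and | apply U.or | apply U.iff | apply U.not | apply U.eq
    | apply U.lt | apply U.mem | apply U.imp
    | apply UT.nx | apply UT.pr | apply UT.num | apply UT.add | apply UT.mul | apply UT.zero
    | apply UT.one | apply UT.var
  all_goals norm_num

lemma u_FP : U 0 1 (fun _ _ V => FP (V 0)) := by
  simp only [FP, AncRec, TC, Good, Nxt, Ent, RM, HM, OM, DR, KR, Prec, mem_sec]
  repeat' first
    | apply U.ex | apply U.all | apply U.and | apply U.or | apply U.iff | apply U.not | apply U.eq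
    | apply U.lt | apply U.mem | apply U.imp
    | apply UT.nx | apply UT.pr | apply UT.num | apply UT.add | apply UT.mul | apply UT.zero
    | apply UT.one | apply UT.var
  all_goals norm_num

lemma u_theta : U 0 3 (fun _ _ V => FP (V 2) ∧ HierEq (V 0) (V 2) (V 1)) := by
  simp only [FP, AncRec, TC, Good, Nxt, Ent, RM, HierEq, HM, OM, DR, KR, Prec, mem_sec]
  repeat' first
    | apply U.ex | apply U.all | apply U.and | apply U.or | apply U.iff | apply U.not | apply U.eq
    | apply U.lt | apply U.mem | apply U.imp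
    | apply UT.nx | apply UT.pr | apply UT.num | apply UT.add | apply UT.mul | apply UT.zero
    | apply UT.one | apply UT.var
  all_goals norm_num

lemma u_KF : U 1 1 (fun _ v V => KF (V 0) (v 0)) := by
  simp only [KF, mem_sec]
  repeat' first
    | apply U.ex | apply U.all | apply U.and | apply U.or | apply U.iff | apply U.not | apply U.eq
    | apply U.lt | apply U.mem | apply U.imp
    | apply UT.nx | apply UT.pr | apply UT.num | apply UT.add | apply UT.mul | apply UT.zero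
    | apply UT.one | apply UT.var
  all_goals norm_num

lemma u_KL : U 2 1 (fun _ v V => KL (V 0) (v 0) (v 1)) := by
  simp only [KL, KBlt, mem_sec]
  repeat' first
    | apply U.ex | apply U.all | apply U.and | apply U.or | apply U.iff | apply U.not | apply U.eq
    | apply U.lt | apply U.mem | apply U.imp
    | apply UT.nx | apply UT.pr | apply UT.num | apply UT.add | apply UT.mul | apply UT.zero
    | apply UT.one | apply UT.var
  all_goals norm_num

/-! ### the sentence -/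

/-- There is an arithmetical formula for the matrix of the sentence; the set variables are
`Z`, `Y`, `P` in this order. -/
theorem exists_theta : ∃ θ : Fml 0 3, θ.Arith ∧ ∀ (N : Type) [Zero N] [One N] [Add N] [Mul N]
    [LT N] (𝒯 : Set (Set N)) (v : Fin 0 → N) (V : Fin 3 → Set N),
    θ.Sat 𝒯 v V ↔ FP (V 2) ∧ HierEq (V 0) (V 2) (V 1) := by
  obtain ⟨θ, ha, hs⟩ := u_theta
  refine ⟨θ, ha, fun N _ _ _ _ _ 𝒯 v V => ?_⟩
  have key := hs ⟨N, inferInstance, inferInstance, inferInstance, inferInstance, inferInstance⟩ 𝒯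
    (fun _ => (0 : N)) (fun j => if h : j < 3 then V ⟨j, h⟩ else ∅)
  have e1 : (fun i : Fin 0 => (0 : N)) = v := by
    funext i
    exact i.elim0
  have e2 : (fun j : Fin 3 => if h : (j : ℕ) < 3 then V ⟨j, h⟩ else ∅) = V := by
    funext j
    simp
  erw [e1, e2] at key
  exact key

end Pool.Agent.Lib.MP_7de92b_lc
end
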