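import Pool.Agent.Lib.MP_7de92b_lc.Mg.G001

section

/-!
# Definable sets and closure of the arithmetical relations under the basic predicates
-/

set_option autoImplicit false
set_option linter.unusedSectionVars false

namespace Pool.Agent.Lib.MP_7de92b_lc

variable {N : Type} [Zero N] [One N] [Add N] [Mul N] [LT N] {𝒮 : Set (Set N)}

/-- `Q v X` is a set whose elements are given by an arithmetical relation. -/
def DSet (𝒮 : Set (Set N)) (Q : (ℕ → N) → Set N → Set N) : Prop :=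
  Ar 𝒮 (fun w X => w 0 ∈ Q (fun i => w (i + 1)) X)

lemma DSet.const {Y : Set N} (hY : Y ∈ 𝒮) : DSet 𝒮 (fun _ _ => Y) := Ar.memP hY (.var 0)

lemma DSet.X : DSet 𝒮 (fun _ X => X) := Ar.memX (.var 0)

lemma DSet.setOf {P : (ℕ → N) → Set N → N → Prop}
    (h : Ar 𝒮 (fun w X => P (fun i => w (i + 1)) X (w 0))) : DSet 𝒮 (fun v X => {y | P v X y}) := h

lemma DSet.up {Q : (ℕ → N) → Set N → Set N} (h : DSet 𝒮 Q) :
    DSet 𝒮 (fun w X => Q (fun i => w (i + 1)) X) := by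
  let κ : ℕ → (ℕ → N) → N := fun i u => Nat.casesOn i (u 0) (fun j => u (j + 2))
  have hκ : ∀ i, TmF (κ i) := by
    intro i
    cases i with
    | zero => exact .var 0
    | succ j => exact .var (j + 2)
  exact Ar.subst (R := fun w X => w 0 ∈ Q (fun i => w (i + 1)) X) h hκ

/-- a definable set in a later environment: use with `ρ i w = w (i + k)` -/
lemma DSet.subst {Q : (ℕ → N) → Set N → Set N} (h : DSet 𝒮 Q) {ρ : ℕ → (ℕ → N) → N}
    (hρ : ∀ i, TmF (ρ i)) : DSet 𝒮 (fun v X => Q (fun i => ρ i v) X) := by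
  let κ : ℕ → (ℕ → N) → N := fun i u =>
    Nat.casesOn i (u 0) (fun j => ρ j (fun k => u (k + 1)))
  have hκ : ∀ i, TmF (κ i) := by
    intro i
    cases i with
    | zero => exact .var 0
    | succ j => exact (hρ j).subst (fun k => .var (k + 1))
  exact Ar.subst (R := fun w X => w 0 ∈ Q (fun i => w (i + 1)) X) h hκ

lemma DSet.mem {Q : (ℕ → N) → Set N → Set N} (h : DSet 𝒮 Q) {t : (ℕ → N) → N} (ht : TmF t) :
    Ar 𝒮 (fun v X => t v ∈ Q v X) :=
  Ar.inst (R := fun w X => w 0 ∈ Q (fun i => w (i + 1)) X) h ht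

lemma DSet.sec {Q : (ℕ → N) → Set N → Set N} (h : DSet 𝒮 Q) {k : (ℕ → N) → N} (hk : TmF k) :
    DSet 𝒮 (fun v X => sec (Q v X) (k v)) :=
  h.up.mem (TmF.pr (.var 0) (hk.subst (fun i => .var (i + 1))))

/-- transfer of uniform definability -/
lemma U.ar {n m : ℕ} {R : ∀ M : RS, (ℕ → M.N) → (ℕ → Set M.N) → Prop} (h : U n m R)
    {t : Fin n → (ℕ → N) → N} {Q : Fin m → (ℕ → N) → Set N → Set N} (ht : ∀ i, TmF (t i))
    (hQ : ∀ j, DSet 𝒮 (Q j)) :
    Ar 𝒮 (fun v X => R ⟨N, inferInstance, inferInstance, inferInstance, inferInstance,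
      inferInstance⟩ (fun i => if h : i < n then t ⟨i, h⟩ v else 0)
      (fun j => if h : j < m then Q ⟨j, h⟩ v X else ∅)) := by
  obtain ⟨φ, ha, hs⟩ := h
  refine (Ar.sat (𝒮 := 𝒮) 𝒮 φ ha (t := t) (Q := fun j y v X => y ∈ Q j v X) ht hQ).congr
    fun v X => ?_
  have key := hs ⟨N, inferInstance, inferInstance, inferInstance, inferInstance, inferInstance⟩ 𝒮
    (fun i => if h : i < n then t ⟨i, h⟩ v else (0 : N))
    (fun j => if h : j < m then Q ⟨j, h⟩ v X else ∅)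
  rw [← key]
  have e1 : (fun i : Fin n => if h : (i : ℕ) < n then t ⟨i, h⟩ v else (0 : N)) =
      fun i => t i v := by
    funext i
    simp
  have e2 : (fun j : Fin m => if h : (j : ℕ) < m then Q ⟨j, h⟩ v X else ∅) =
      fun j => Q j v X := by
    funext j
    simp
  erw [e1, e2]
  rfl

section preds

variable {s t r : (ℕ → N) → N} {P Q Q' : (ℕ → N) → Set N → Set N}

lemma Ar.oM (hs : TmF s) (ht : TmF t) (hr : TmF r) :
    Ar 𝒮 (fun v _ => OM (s v) (t v) (r v)) := by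
  have := u_OM.ar (𝒮 := 𝒮) (t := ![s, t, r]) (Q := Fin.elim0)
    (by intro i; fin_cases i <;> assumption) (fun j => j.elim0)
  exact this

lemma Ar.ent (hP : DSet 𝒮 P) (hs : TmF s) (ht : TmF t) (hr : TmF r) :
    Ar 𝒮 (fun v X => Ent (P v X) (s v) (t v) (r v)) := by
  have := u_Ent.ar (𝒮 := 𝒮) (t := ![s, t, r]) (Q := fun _ => P)
    (by intro i; fin_cases i <;> assumption) (fun j => hP)
  exact this

lemma Ar.nxt (hs : TmF s) (ht : TmF t) : Ar 𝒮 (fun v _ => Nxt (s v) (t v)) := by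
  have := u_Nxt.ar (𝒮 := 𝒮) (t := ![s, t]) (Q := Fin.elim0)
    (by intro i; fin_cases i <;> assumption) (fun j => j.elim0)
  exact this

lemma Ar.good (hP : DSet 𝒮 P) (hs : TmF s) : Ar 𝒮 (fun v X => Good (P v X) (s v)) := by
  have := u_Good.ar (𝒮 := 𝒮) (t := ![s]) (Q := fun _ => P)
    (by intro i; fin_cases i; assumption) (fun j => hP)
  exact this

lemma Ar.prec (hP : DSet 𝒮 P) (hs : TmF s) (ht : TmF t) :
    Ar 𝒮 (fun v X => Prec (P v X) (s v) (t v)) := by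
  have := u_Prec.ar (𝒮 := 𝒮) (t := ![s, t]) (Q := fun _ => P)
    (by intro i; fin_cases i <;> assumption) (fun j => hP)
  exact this

lemma Ar.hM (hP : DSet 𝒮 P) (hs : TmF s) (ht : TmF t) :
    Ar 𝒮 (fun v X => HM (P v X) (s v) (t v)) := by
  have := u_HM.ar (𝒮 := 𝒮) (t := ![s, t]) (Q := fun _ => P)
    (by intro i; fin_cases i <;> assumption) (fun j => hP)
  exact this

lemma Ar.rM (hP : DSet 𝒮 P) (hs : TmF s) (ht : TmF t) :
    Ar 𝒮 (fun v X => RM (P v X) (s v) (t v)) := by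
  have := u_RM.ar (𝒮 := 𝒮) (t := ![s, t]) (Q := fun _ => P)
    (by intro i; fin_cases i <;> assumption) (fun j => hP)
  exact this

lemma Ar.kBlt (hP : DSet 𝒮 P) (hs : TmF s) (ht : TmF t) :
    Ar 𝒮 (fun v X => KBlt (P v X) (s v) (t v)) := by
  have := u_KBlt.ar (𝒮 := 𝒮) (t := ![s, t]) (Q := fun _ => P)
    (by intro i; fin_cases i <;> assumption) (fun j => hP)
  exact this

lemma Ar.kF (hP : DSet 𝒮 P) (hs : TmF s) : Ar 𝒮 (fun v X => KF (P v X) (s v)) := by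
  have := u_KF.ar (𝒮 := 𝒮) (t := ![s]) (Q := fun _ => P)
    (by intro i; fin_cases i; assumption) (fun j => hP)
  exact this

lemma Ar.kL (hP : DSet 𝒮 P) (hs : TmF s) (ht : TmF t) :
    Ar 𝒮 (fun v X => KL (P v X) (s v) (t v)) := by
  have := u_KL.ar (𝒮 := 𝒮) (t := ![s, t]) (Q := fun _ => P)
    (by intro i; fin_cases i <;> assumption) (fun j => hP)
  exact this

lemma Ar.tC (hP : DSet 𝒮 P) (hs : TmF s) : Ar 𝒮 (fun v X => TC (P v X) (s v)) := by
  have := u_TC.ar (𝒮 := 𝒮) (t := ![s]) (Q := fun _ => P)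
    (by intro i; fin_cases i; assumption) (fun j => hP)
  exact this

lemma Ar.hierEq (hP : DSet 𝒮 P) (hQ : DSet 𝒮 Q) (hQ' : DSet 𝒮 Q') :
    Ar 𝒮 (fun v X => HierEq (P v X) (Q v X) (Q' v X)) := by
  have := u_HierEq.ar (𝒮 := 𝒮) (t := Fin.elim0) (Q := ![P, Q, Q'])
    (fun i => i.elim0) (by intro i; fin_cases i <;> assumption)
  exact this

end preds

end Pool.Agent.Lib.MP_7de92b_lc
end

section

/-!
# T1: pairing, numerals, induction
-/

set_option autoImplicit false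
set_option linter.unusedSectionVars false

namespace Pool.Agent.Lib.MP_7de92b_lc

section

variable {N : Type} [CommSemiring N] [LinearOrder N] [IsStrictOrderedRing N] [Ari N]

lemma t1_nonneg (x : N) : 0 ≤ x := Ari.zero_le' x

lemma t1_succ_le {x y : N} : x + 1 ≤ y ↔ x < y := by
  rw [← not_lt, Ari.lt_succ', not_le]

lemma t1_le_add_right (a b : N) : a ≤ a + b := le_add_of_nonneg_right (t1_nonneg b)

lemma t1_le_add_left (a b : N) : a ≤ b + a := le_add_of_nonneg_left (t1_nonneg b)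

lemma t1_lt_succ (a : N) : a < a + 1 := (Ari.lt_succ' a a).2 le_rfl

lemma pr_lt_pr {a b c d : N} (h : a + b < c + d) : pr a b < pr c d := by
  have h1 : a + b + 1 ≤ c + d := t1_succ_le.2 h
  calc pr a b = (a + b) * (a + b) + a := rfl
    _ ≤ (a + b) * (a + b) + (a + b) := by
        exact add_le_add le_rfl (t1_le_add_right a b)
    _ < (a + b) * (a + b) + (a + b) + 1 := t1_lt_succ _
    _ ≤ (a + b) * (a + b) + (a + b) + 1 + (a + b) := t1_le_add_right _ _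
    _ = (a + b + 1) * (a + b + 1) := by ring
    _ ≤ (c + d) * (c + d) := mul_le_mul h1 h1 (t1_nonneg _) (t1_nonneg _)
    _ ≤ pr c d := t1_le_add_right _ _

lemma pr_inj {a b c d : N} : pr a b = pr c d ↔ a = c ∧ b = d := by
  constructor
  · intro h
    rcases lt_trichotomy (a + b) (c + d) with h1 | h1 | h1
    · exact absurd h (pr_lt_pr h1).ne
    · have h2 : (c + d) * (c + d) + a = (c + d) * (c + d) + c := by
        have h3 : (a + b) * (a + b) + a = (c + d) * (c + d) + c := h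
        rwa [h1] at h3
      have h4 : a = c := add_left_cancel h2
      subst h4
      exact ⟨rfl, add_left_cancel h1⟩
    · exact absurd h (pr_lt_pr h1).ne'
  · rintro ⟨rfl, rfl⟩
    rfl

lemma le_pr_left (a b : N) : a ≤ pr a b := t1_le_add_left _ _

lemma t1_le_mul_self (n : N) : n ≤ n * n := by
  rcases Ari.zero_or_succ' n with h | ⟨m, h⟩
  · subst h
    simp
  · have : n * n = n * m + n := by
      conv_lhs => rw [h]
      rw [← h, h]
      ring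
    rw [this]
    exact t1_le_add_left _ _

lemma le_pr_right (a b : N) : b ≤ pr a b :=
  (t1_le_add_left b a).trans ((t1_le_mul_self (a + b)).trans (t1_le_add_right _ _))

lemma lt_pr_right {a : N} (h : 0 < a) (b : N) : b < pr a b := by
  have h1 : b ≤ (a + b) * (a + b) := (t1_le_add_left b a).trans (t1_le_mul_self (a + b))
  calc b = b + 0 := (add_zero b).symm
    _ < (a + b) * (a + b) + a := add_lt_add_of_le_of_lt h1 h

lemma pr_zero_zero : pr (0 : N) 0 = 0 := by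
  simp [pr]

lemma pr_eq_zero {a b : N} : pr a b = 0 ↔ a = 0 ∧ b = 0 := by
  constructor
  · intro h
    rw [← pr_zero_zero (N := N)] at h
    exact pr_inj.1 h
  · rintro ⟨rfl, rfl⟩
    exact pr_zero_zero

lemma t1_num_eq (i : ℕ) : (num i : N) = (i : N) := by
  induction i with
  | zero => simp [num]
  | succ n ih => simp [num, ih]

lemma num_inj {i j : ℕ} : (num i : N) = num j ↔ i = j := by
  rw [t1_num_eq, t1_num_eq]
  exact Nat.cast_inj

lemma num_pos {i : ℕ} (h : 0 < i) : 0 < (num i : N) := by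
  rw [t1_num_eq]
  exact_mod_cast h

lemma nx_inj {s e s' e' : N} : nx s e = nx s' e' ↔ s = s' ∧ e = e' := by
  rw [← pr_inj]
  exact add_left_inj 1

lemma nx_ne_zero (s e : N) : nx s e ≠ 0 :=
  (lt_of_le_of_lt (t1_nonneg _) (t1_lt_succ _)).ne'

lemma lt_nx_left (s e : N) : s < nx s e := lt_of_le_of_lt (le_pr_left s e) (t1_lt_succ _)

lemma lt_nx_right (s e : N) : e < nx s e := lt_of_le_of_lt (le_pr_right s e) (t1_lt_succ _)

lemma exists_pred {x : N} (h : x ≠ 0) : ∃ y, x = y + 1 :=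
  (Ari.zero_or_succ' x).resolve_left h

lemma mem_gr {f : N → N} {x y : N} : pr x y ∈ gr f ↔ y = f x := by
  constructor
  · rintro ⟨x', h⟩
    obtain ⟨rfl, h2⟩ := pr_inj.1 h
    exact h2
  · rintro rfl
    exact ⟨x, rfl⟩

lemma TmF.nx {s t : (ℕ → N) → N} (hs : TmF s) (ht : TmF t) : TmF (fun v => nx (s v) (t v)) :=
  (hs.pr ht).add (.const 1)

variable {𝒮 : Set (Set N)}

lemma Ar.le {s t : (ℕ → N) → N} (hs : TmF s) (ht : TmF t) : Ar 𝒮 (fun v _ => s v ≤ t v) :=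
  (Ar.lt hs (ht.add (.const 1))).congr fun v X => Ari.lt_succ' (s v) (t v)

/-- a function with graph in `𝒮` may be used in arithmetical relations -/
lemma Ar.fn {f : N → N} (hf : gr f ∈ 𝒮) {t : (ℕ → N) → N} (ht : TmF t)
    {P : (ℕ → N) → Set N → N → Prop}
    (h : Ar 𝒮 (fun w X => P (fun i => w (i + 1)) X (w 0))) :
    Ar 𝒮 (fun v X => P v X (f (t v))) := by
  refine (Ar.ex (P := fun v X a => pr (t v) a ∈ gr f ∧ P v X a) ?_).congr fun v X => ?_
  · exact (Ar.memP hf (TmF.pr (ht.subst (fun i => .var (i + 1))) (.var 0))).and h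
  · constructor
    · rintro ⟨a, h1, h2⟩
      rw [mem_gr] at h1
      rw [← h1]
      exact h2
    · intro h1
      exact ⟨f (t v), mem_gr.2 rfl, h1⟩

lemma Mod.comp' (hM : Mod 𝒮) {P : N → Prop} (h : Ar 𝒮 (fun v _ => P (v 0))) :
    {x | P x} ∈ 𝒮 := by
  obtain ⟨X, hX⟩ := hM.ne
  exact hM.comp h (fun _ => 0) X hX

/-- closure under arithmetical definability from sets of `𝒮`, with a set variable and number
parameters allowed -/
lemma Mod.gr_mem (hM : Mod 𝒮) {f : N → N} (h : Ar 𝒮 (fun v _ => v 1 = f (v 0))) :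
    gr f ∈ 𝒮 := by
  have h1 : Ar 𝒮 (fun v _ => ∃ x y, v 0 = pr x y ∧ y = f x) := by
    refine Ar.ex (P := fun v _ x => ∃ y, v 0 = pr x y ∧ y = f x) ?_
    refine Ar.ex (P := fun v _ y => v 1 = pr (v 0) y ∧ y = f (v 0)) ?_
    refine (Ar.eq (.var 2) (TmF.pr (.var 1) (.var 0))).and ?_
    let ρ : ℕ → (ℕ → N) → N := fun i w => if i = 0 then w 1 else w 0
    have hρ : ∀ i, TmF (ρ i) := by
      intro i
      by_cases hi : i = 0
      · subst hi
        exact TmF.var 1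
      · have : ρ i = fun w => w 0 := by
          funext w
          simp [ρ, hi]
        rw [this]
        exact TmF.var 0
    exact h.subst hρ
  have h2 := hM.comp' (P := fun z => ∃ x y, z = pr x y ∧ y = f x) h1
  have h3 : gr f = {x | ∃ x_1 y, x = pr x_1 y ∧ y = f x_1} := by
    ext z
    constructor
    · rintro ⟨x, hx⟩
      exact ⟨x, f x, hx, rfl⟩
    · rintro ⟨x, y, hx, rfl⟩
      exact ⟨x, hx⟩
  rw [h3]
  exact h2

/-- induction for arithmetical properties -/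
theorem Mod.induct (hM : Mod 𝒮) {P : N → Prop} (hP : Ar 𝒮 (fun v _ => P (v 0))) (h0 : P 0)
    (h1 : ∀ n, P n → P (n + 1)) : ∀ n, P n :=
  hM.ind {x | P x} (hM.comp' hP) h0 h1

/-- course of values induction for arithmetical properties -/
theorem Mod.strong' (hM : Mod 𝒮) {P : N → Prop} (hP : Ar 𝒮 (fun v _ => P (v 0)))
    (h : ∀ n : N, (∀ m : N, m < n → P m) → P n) : ∀ n, P n := by
  have key : ∀ n : N, ∀ m : N, m < n → P m := by
    apply hM.induct (P := fun n => ∀ m : N, m < n → P m)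
    · refine Ar.all (P := fun v _ m => m < v 0 → P m) ?_
      refine (Ar.lt (.var 0) (.var 1)).imp ?_
      exact hP
    · intro m hm
      exact absurd hm (not_lt.2 (t1_nonneg m))
    · intro n ih m hm
      rcases lt_or_eq_of_le ((Ari.lt_succ' m n).1 hm) with h1 | h1
      · exact ih m h1
      · subst h1
        exact h m ih
  intro n
  exact h n (key n)

/-- least number principle for arithmetical properties -/
theorem Mod.least' (hM : Mod 𝒮) {P : N → Prop} (hP : Ar 𝒮 (fun v _ => P (v 0)))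
    (hne : ∃ x, P x) : ∃ x, P x ∧ ∀ y, P y → x ≤ y := by
  by_contra hcon
  push Not at hcon
  obtain ⟨x, hx⟩ := hne
  have key : ∀ n, ¬ P n := by
    apply hM.strong' (P := fun n => ¬ P n) hP.not
    intro n ih hn
    obtain ⟨y, hy, hlt⟩ := hcon n hn
    exact ih y hlt hy
  exact key x hx

/-- the least number principle -/
theorem Mod.least (hM : Mod 𝒮) {A : Set N} (hA : A ∈ 𝒮) (hne : ∃ x, x ∈ A) :
    ∃ x ∈ A, ∀ y ∈ A, x ≤ y :=
  hM.least' (P := fun x => x ∈ A) (Ar.memP hA (.var 0)) hne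

/-- course of values induction -/
theorem Mod.strong (hM : Mod 𝒮) {A : Set N} (hA : A ∈ 𝒮)
    (h : ∀ n : N, (∀ m : N, m < n → m ∈ A) → n ∈ A) : ∀ n : N, n ∈ A :=
  hM.strong' (P := fun x => x ∈ A) (Ar.memP hA (.var 0)) h

/-- a code for finitely many sets -/
theorem Mod.exists_code (hM : Mod 𝒮) {m : ℕ} (V : Fin m → Set N) (hV : ∀ j, V j ∈ 𝒮) :
    ∃ Y ∈ 𝒮, ∀ j, ∃ k, sec Y k = V j := by
  induction m with
  | zero =>
    obtain ⟨X, hX⟩ := hM.ne
    exact ⟨X, hX, fun j => j.elim0⟩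
  | succ m ih =>
    obtain ⟨Y, hY, hk⟩ := ih (fun j => V j.succ) (fun j => hV j.succ)
    have hAr : Ar 𝒮 (fun v _ => (∃ y, v 0 = pr y 0 ∧ y ∈ V 0) ∨
        ∃ y k, v 0 = pr y (k + 1) ∧ pr y k ∈ Y) := by
      have h0 : V 0 ∈ 𝒮 := hV 0
      refine Ar.or ?_ ?_
      · refine Ar.ex (P := fun v _ y => v 0 = pr y 0 ∧ y ∈ V 0) ?_
        exact (Ar.eq (.var 1) (TmF.pr (.var 0) (.const 0))).and (Ar.memP h0 (.var 0))
      · refine Ar.ex (P := fun v _ y => ∃ k, v 0 = pr y (k + 1) ∧ pr y k ∈ Y) ?_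
        refine Ar.ex (P := fun v _ k => v 1 = pr (v 0) (k + 1) ∧ pr (v 0) k ∈ Y) ?_
        exact (Ar.eq (.var 2) (TmF.pr (.var 1) ((TmF.var 0).add (.const 1)))).and
          (Ar.memP hY (TmF.pr (.var 1) (.var 0)))
    refine ⟨_, hM.comp' (P := fun x => (∃ y, x = pr y 0 ∧ y ∈ V 0) ∨
        ∃ y k, x = pr y (k + 1) ∧ pr y k ∈ Y) hAr, fun j => ?_⟩
    refine Fin.cases ?_ (fun i => ?_) j
    · refine ⟨0, ?_⟩
      ext x
      constructor
      · rintro (⟨y, h1, h2⟩ | ⟨y, k, h1, h2⟩)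
        · rw [(pr_inj.1 h1).1]
          exact h2
        · exact absurd (pr_inj.1 h1).2.symm (lt_of_le_of_lt (t1_nonneg _) (t1_lt_succ _)).ne'
      · intro hx
        exact Or.inl ⟨x, rfl, hx⟩
    · obtain ⟨k, hk'⟩ := hk i
      refine ⟨k + 1, ?_⟩
      rw [← hk']
      ext x
      constructor
      · rintro (⟨y, h1, h2⟩ | ⟨y, k', h1, h2⟩)
        · exact absurd (pr_inj.1 h1).2 (lt_of_le_of_lt (t1_nonneg _) (t1_lt_succ _)).ne'
        · obtain ⟨h3, h4⟩ := pr_inj.1 h1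
          rw [h3, add_right_cancel h4]
          exact h2
      · intro hx
        exact Or.inr ⟨x, k, rfl, hx⟩

end

end Pool.Agent.Lib.MP_7de92b_lc
end

section

/-!
# T5: linear orders
-/

set_option autoImplicit false
set_option linter.unusedSectionVars false

namespace Pool.Agent.Lib.MP_7de92b_lc

section

variable {N : Type} [CommSemiring N] [LinearOrder N] [IsStrictOrderedRing N] [Ari N]
  {𝒮 : Set (Set N)} {B : Set N}

lemma LinOrd.wlt_irrefl {W : Set N} (_h : LinOrd W) (a : N) : ¬ wlt W a a :=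
  fun h => h.2 h.1

lemma LinOrd.wlt_trans {W : Set N} (h : LinOrd W) {a b c : N} (hab : wlt W a b)
    (hbc : wlt W b c) : wlt W a c :=
  ⟨h.trans _ _ _ hab.1 hbc.1, fun hca => hbc.2 (h.trans _ _ _ hca hab.1)⟩

lemma LinOrd.wlt_total {W : Set N} (h : LinOrd W) {a b : N} (ha : a ∈ fld W) (hb : b ∈ fld W) :
    wlt W a b ∨ a = b ∨ wlt W b a := by
  by_cases h1 : pr a b ∈ W
  · by_cases h2 : pr b a ∈ W
    · exact Or.inr (Or.inl (h.antisymm _ _ h1 h2))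
    · exact Or.inl ⟨h1, h2⟩
  · rcases h.total a b ha hb with h3 | h3
    · exact absurd h3 h1
    · exact Or.inr (Or.inr ⟨h3, h1⟩)

lemma LinOrd.wlt_fld {W : Set N} (h : LinOrd W) {a b : N} (hab : wlt W a b) :
    a ∈ fld W ∧ b ∈ fld W := h.mem_fld _ _ hab.1

lemma LinOrd.mem_iff {W : Set N} (h : LinOrd W) {a b : N} :
    pr a b ∈ W ↔ a ∈ fld W ∧ b ∈ fld W ∧ (wlt W a b ∨ a = b) := by
  constructor
  · intro hab
    refine ⟨(h.mem_fld _ _ hab).1, (h.mem_fld _ _ hab).2, ?_⟩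
    by_cases h2 : pr b a ∈ W
    · exact Or.inr (h.antisymm _ _ hab h2)
    · exact Or.inl ⟨hab, h2⟩
  · rintro ⟨ha, _, h1 | rfl⟩
    · exact h1.1
    · exact ha

lemma t6_mem_natW {a b : N} : pr a b ∈ (natW : Set N) ↔ a ≤ b := by
  constructor
  · rintro ⟨c, d, hcd, h1⟩
    obtain ⟨rfl, rfl⟩ := pr_inj.1 hcd
    rcases h1 with h1 | h1
    · exact h1.le
    · exact h1.le
  · intro h
    exact ⟨a, b, rfl, lt_or_eq_of_le h⟩

lemma fld_natW : fld (natW : Set N) = Set.univ := by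
  ext i
  constructor
  · intro _
    trivial
  · intro _
    exact t6_mem_natW.2 le_rfl

lemma wlt_natW {a b : N} : wlt natW a b ↔ a < b := by
  unfold wlt
  rw [t6_mem_natW, t6_mem_natW]
  exact lt_iff_le_not_ge.symm

theorem natW_mem (hM : Mod 𝒮) : (natW : Set N) ∈ 𝒮 := by
  have h : Ar 𝒮 (fun v _ => ∃ a b, v 0 = pr a b ∧ (a < b ∨ a = b)) := by
    repeat' first
      | apply Ar.ex | apply Ar.and | apply Ar.or | apply Ar.eq | apply Ar.lt
      | apply TmF.pr | apply TmF.var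
  exact hM.comp' (P := fun x => ∃ a b, x = pr a b ∧ (a < b ∨ a = b)) h

lemma t6_linOrd_natW : LinOrd (natW : Set N) where
  mem_fld := fun i j _ => by
    rw [fld_natW]
    exact ⟨trivial, trivial⟩
  trans := fun i j k h1 h2 => t6_mem_natW.2 ((t6_mem_natW.1 h1).trans (t6_mem_natW.1 h2))
  antisymm := fun i j h1 h2 => le_antisymm (t6_mem_natW.1 h1) (t6_mem_natW.1 h2)
  total := fun i j _ _ => (le_total i j).imp t6_mem_natW.2 t6_mem_natW.2

theorem natW_wo (hM : Mod 𝒮) : WO 𝒮 (natW : Set N) := by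
  refine ⟨t6_linOrd_natW, ?_⟩
  rintro ⟨f, hf, hdesc⟩
  have hAr : Ar 𝒮 (fun v _ => ∃ n, pr n (v 0) ∈ gr f) := by
    apply Ar.ex
    exact Ar.memP hf (TmF.pr (.var 0) (.var 1))
  obtain ⟨x, ⟨n, hn⟩, hmin⟩ := hM.least' (P := fun y => ∃ n, pr n y ∈ gr f) hAr
    ⟨f 0, 0, mem_gr.2 rfl⟩
  have h1 := hmin (f (n + 1)) ⟨n + 1, mem_gr.2 rfl⟩
  have h2 := wlt_natW.1 (hdesc n)
  rw [mem_gr.1 hn] at h1
  exact absurd h2 (not_lt.2 h1)

lemma t6_mem_lexW {W W' : Set N} {a b a' b' : N} :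
    pr (pr a b) (pr a' b') ∈ lexW W W' ↔ b ∈ fld W' ∧ b' ∈ fld W' ∧
      (wlt W a a' ∨ (a = a' ∧ a ∈ fld W ∧ pr b b' ∈ W')) := by
  constructor
  · rintro ⟨c, d, c', d', h, h1⟩
    obtain ⟨e1, e2⟩ := pr_inj.1 h
    obtain ⟨rfl, rfl⟩ := pr_inj.1 e1
    obtain ⟨rfl, rfl⟩ := pr_inj.1 e2
    exact h1
  · intro h
    exact ⟨a, b, a', b', rfl, h⟩

lemma mem_fld_lexW {W W' : Set N} (h : LinOrd W) (h' : LinOrd W') {w : N} :
    w ∈ fld (lexW W W') ↔ ∃ a b, w = pr a b ∧ a ∈ fld W ∧ b ∈ fld W' := by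
  constructor
  · rintro ⟨a, b, a', b', h0, hb, _, h1⟩
    obtain ⟨e1, e2⟩ := pr_inj.1 h0
    refine ⟨a, b, e1, ?_, hb⟩
    rcases h1 with h1 | h1
    · exact (h.wlt_fld h1).1
    · exact h1.2.1
  · rintro ⟨a, b, rfl, ha, hb⟩
    exact t6_mem_lexW.2 ⟨hb, hb, Or.inr ⟨rfl, ha, hb⟩⟩

lemma wlt_lexW {W W' : Set N} (h : LinOrd W) (h' : LinOrd W') {a b a' b' : N} :
    wlt (lexW W W') (pr a b) (pr a' b') ↔ b ∈ fld W' ∧ b' ∈ fld W' ∧
      (wlt W a a' ∨ (a = a' ∧ a ∈ fld W ∧ wlt W' b b')) := by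
  unfold wlt
  rw [t6_mem_lexW, t6_mem_lexW]
  constructor
  · rintro ⟨⟨hb, hb', h1⟩, h2⟩
    refine ⟨hb, hb', ?_⟩
    rcases h1 with h1 | ⟨rfl, ha, h1⟩
    · exact Or.inl h1
    · exact Or.inr ⟨rfl, ha, h1, fun h3 => h2 ⟨hb', hb, Or.inr ⟨rfl, ha, h3⟩⟩⟩
  · rintro ⟨hb, hb', h1⟩
    rcases h1 with h1 | ⟨rfl, ha, h1, h2⟩
    · refine ⟨⟨hb, hb', Or.inl h1⟩, ?_⟩
      rintro ⟨_, _, h3 | ⟨rfl, _, _⟩⟩
      · exact h3.2 h1.1
      · exact h1.2 h1.1
    · refine ⟨⟨hb, hb', Or.inr ⟨rfl, ha, h1⟩⟩, ?_⟩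
      rintro ⟨_, _, h3 | ⟨_, _, h3⟩⟩
      · exact h3.2 h3.1
      · exact h2 h3

theorem lexW_mem (hM : Mod 𝒮) {W W' : Set N} (hW : W ∈ 𝒮) (hW' : W' ∈ 𝒮) : lexW W W' ∈ 𝒮 := by
  have h : Ar 𝒮 (fun v _ => ∃ a b a' b' : N, v 0 = pr (pr a b) (pr a' b') ∧ pr b b ∈ W' ∧
      pr b' b' ∈ W' ∧ ((pr a a' ∈ W ∧ ¬ pr a' a ∈ W) ∨
        (a = a' ∧ pr a a ∈ W ∧ pr b b' ∈ W'))) := by
    repeat' first
      | apply Ar.ex | apply Ar.and | apply Ar.or | apply Ar.not | apply Ar.eq | apply Ar.lt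
      | refine Ar.memP (by assumption) ?_ | apply TmF.pr | apply TmF.var
  exact hM.comp' (P := fun x => ∃ a b a' b' : N, x = pr (pr a b) (pr a' b') ∧ pr b b ∈ W' ∧
      pr b' b' ∈ W' ∧ ((pr a a' ∈ W ∧ ¬ pr a' a ∈ W) ∨
        (a = a' ∧ pr a a ∈ W ∧ pr b b' ∈ W'))) h

end

end Pool.Agent.Lib.MP_7de92b_lc
end

section

/-!
# T16: course of values recursion in ATR_0
-/

set_option autoImplicit false
set_option linter.unusedSectionVars false

namespace Pool.Agent.Lib.MP_7de92b_lc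

section

variable {N : Type} [CommSemiring N] [LinearOrder N] [IsStrictOrderedRing N] [Ari N]
  {𝒮 : Set (Set N)}

/-- T12a -/
theorem cov (hA : ATR0 𝒮) (hM : Mod 𝒮) {Θ : N → Set N → Prop}
    (hΘ : Ar 𝒮 (fun v X => Θ (v 0) X))
    (hloc : ∀ (z : N) (X X' : Set N), (∀ y, y < z → (y ∈ X ↔ y ∈ X')) → (Θ z X ↔ Θ z X')) :
    ∃ X ∈ 𝒮, ∀ z, z ∈ X ↔ Θ z X := by
  have hR : Ar 𝒮 (fun v X => v 0 = 0 ∨ (v 0 = 1 ∧ ∃ j, (∀ i, i < j ↔ pr 0 i ∈ X) ∧
      Θ j {i | pr 1 i ∈ X})) := by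
    refine Ar.or (.eq (.var 0) (.const 0)) (Ar.and (.eq (.var 0) (.const 1)) (Ar.ex (Ar.and ?_ ?_)))
    · exact Ar.all (Ar.iff (.lt (.var 0) (.var 1)) (Ar.memX (.pr (.const 0) (.var 0))))
    · exact Ar.setX (R := fun w X => Θ (w 0) X) hΘ (Q := fun y w X => pr 1 y ∈ X)
        (Ar.memX (.pr (.const 1) (.var 0)))
  obtain ⟨Y, hY, hYe⟩ := hA.iter hR (fun _ => 0) (natW_mem hM) (natW_wo hM)
  have h01 : (1 : N) ≠ 0 := one_ne_zero
  have hcut : ∀ {k i j : N}, pr k i ∈ cut natW Y j ↔ pr k i ∈ Y ∧ i < j := by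
    intro k i j
    constructor
    · rintro ⟨h1, m, i', he, hi⟩
      rw [pr_inj] at he
      obtain ⟨rfl, rfl⟩ := he
      exact ⟨h1, wlt_natW.1 hi⟩
    · rintro ⟨h1, h2⟩
      exact ⟨h1, k, i, rfl, wlt_natW.2 h2⟩
  have h0 : ∀ j, pr 0 j ∈ Y := by
    intro j
    rw [hYe]
    exact ⟨0, j, rfl, by rw [fld_natW]; trivial, Or.inl rfl⟩
  have h1 : ∀ j, pr 1 j ∈ Y ↔ Θ j {i | pr 1 i ∈ Y} := by
    intro j
    have e1 : Θ j {i | pr 1 i ∈ cut natW Y j} ↔ Θ j {i | pr 1 i ∈ Y} := by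
      apply hloc
      intro y hy
      change pr 1 y ∈ cut natW Y j ↔ pr 1 y ∈ Y
      rw [hcut]
      exact ⟨fun h => h.1, fun h => ⟨h, hy⟩⟩
    rw [hYe]
    constructor
    · rintro ⟨k, j', he, -, hk⟩
      rw [pr_inj] at he
      obtain ⟨rfl, rfl⟩ := he
      rcases hk with hk | ⟨-, j', hj', hΘj⟩
      · exact absurd hk h01
      · have : j = j' := by
          simp only [hcut, h0, true_and] at hj'
          apply le_antisymm
          · exact not_lt.1 fun hlt => lt_irrefl _ ((hj' j').2 hlt)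
          · exact not_lt.1 fun hlt => lt_irrefl _ ((hj' j).1 hlt)
        subst this
        exact e1.1 hΘj
    · intro h
      refine ⟨1, j, rfl, by rw [fld_natW]; trivial, Or.inr ⟨rfl, j, ?_, e1.2 h⟩⟩
      intro i
      rw [hcut]
      exact ⟨fun h => ⟨h0 i, h⟩, fun h => h.2⟩
  refine ⟨{i | pr 1 i ∈ Y}, hM.comp' (P := fun i => pr 1 i ∈ Y)
    (Ar.memP hY (.pr (.const 1) (.var 0))), h1⟩

end

end Pool.Agent.Lib.MP_7de92b_lc
end

section

/-!
# T3: sequences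
-/

set_option autoImplicit false
set_option linter.unusedSectionVars false

namespace Pool.Agent.Lib.MP_7de92b_lc

section

variable {N : Type} [CommSemiring N] [LinearOrder N] [IsStrictOrderedRing N] [Ari N]
  {𝒮 : Set (Set N)} {B : Set N}

lemma anc_refl (hB : AncRec B) (s : N) : pr s s ∈ B := (hB s s).2 (Or.inl rfl)

lemma anc_nx (hB : AncRec B) {t s e : N} : pr t (nx s e) ∈ B ↔ t = nx s e ∨ pr t s ∈ B := by
  rw [hB t (nx s e)]
  constructor
  · rintro (h | ⟨s', e', h, h'⟩)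
    · exact Or.inl h
    · obtain ⟨rfl, rfl⟩ := nx_inj.1 h
      exact Or.inr h'
  · rintro (h | h)
    · exact Or.inl h
    · exact Or.inr ⟨s, e, rfl, h⟩

lemma anc_zero (hB : AncRec B) {t : N} : pr t 0 ∈ B ↔ t = 0 := by
  rw [hB t 0]
  constructor
  · rintro (h | ⟨s', e', h, -⟩)
    · exact h
    · exact absurd h.symm (nx_ne_zero s' e')
  · intro h
    exact Or.inl h

/-- induction along the last entries -/
lemma t4_ind (hM : Mod 𝒮) {P : N → Prop} (hP : Ar 𝒮 (fun v _ => P (v 0)))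
    (h0 : ∀ s, (∀ s' e, s ≠ nx s' e) → P s) (h1 : ∀ s e, P s → P (nx s e)) : ∀ s, P s := by
  refine hM.strong' hP ?_
  intro n ih
  by_cases h : ∃ s' e, n = nx s' e
  · obtain ⟨s', e, rfl⟩ := h
    exact h1 s' e (ih s' (lt_nx_left s' e))
  · push Not at h
    exact h0 n h

lemma t4_of_not_nx (hB : AncRec B) {t s : N} (h : ∀ s' e, s ≠ nx s' e) (ht : pr t s ∈ B) :
    t = s := by
  rcases (hB t s).1 ht with h' | ⟨s', e, h', -⟩
  · exact h'
  · exact absurd h' (h s' e)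

lemma anc_le (hM : Mod 𝒮) (hBS : B ∈ 𝒮) (hB : AncRec B) : ∀ {t s : N}, pr t s ∈ B → t ≤ s := by
  have key : ∀ s : N, ∀ t, pr t s ∈ B → t ≤ s := by
    refine t4_ind hM ?_ ?_ ?_
    · apply Ar.all
      apply Ar.imp
      · exact Ar.memP hBS (TmF.pr (.var 0) (.var 1))
      · exact Ar.le (.var 0) (.var 1)
    · intro s h t ht
      exact le_of_eq (t4_of_not_nx hB h ht)
    · intro s e ih t ht
      rcases (anc_nx hB).1 ht with h | h
      · exact le_of_eq h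
      · exact (ih t h).trans (lt_nx_left s e).le
  intro t s h
  exact key s t h

lemma anc_trans (hM : Mod 𝒮) (hBS : B ∈ 𝒮) (hB : AncRec B) :
    ∀ {r s t : N}, pr r s ∈ B → pr s t ∈ B → pr r t ∈ B := by
  have key : ∀ t : N, ∀ r s, pr r s ∈ B → pr s t ∈ B → pr r t ∈ B := by
    refine t4_ind hM ?_ ?_ ?_
    · apply Ar.all
      apply Ar.all
      apply Ar.imp
      · exact Ar.memP hBS (TmF.pr (.var 1) (.var 0))
      apply Ar.imp
      · exact Ar.memP hBS (TmF.pr (.var 0) (.var 2))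
      · exact Ar.memP hBS (TmF.pr (.var 1) (.var 2))
    · intro t h r s hr hs
      obtain rfl := t4_of_not_nx hB h hs
      exact hr
    · intro t e ih r s hr hs
      rcases (anc_nx hB).1 hs with h | h
      · rw [h] at hr
        exact hr
      · exact (anc_nx hB).2 (Or.inr (ih r s hr h))
  intro r s t
  exact key t r s

/-- two ancestors of a sequence are comparable -/
lemma anc_total (hM : Mod 𝒮) (hBS : B ∈ 𝒮) (hB : AncRec B) :
    ∀ {r s t : N}, pr r t ∈ B → pr s t ∈ B → pr r s ∈ B ∨ pr s r ∈ B := by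
  have key : ∀ t : N, ∀ r s, pr r t ∈ B → pr s t ∈ B → pr r s ∈ B ∨ pr s r ∈ B := by
    refine t4_ind hM ?_ ?_ ?_
    · apply Ar.all
      apply Ar.all
      apply Ar.imp
      · exact Ar.memP hBS (TmF.pr (.var 1) (.var 2))
      apply Ar.imp
      · exact Ar.memP hBS (TmF.pr (.var 0) (.var 2))
      apply Ar.or
      · exact Ar.memP hBS (TmF.pr (.var 1) (.var 0))
      · exact Ar.memP hBS (TmF.pr (.var 0) (.var 1))
    · intro t h r s hr hs
      obtain rfl := t4_of_not_nx hB h hs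
      exact Or.inl hr
    · intro t e ih r s hr hs
      rcases (anc_nx hB).1 hr with h | h
      · right
        rw [h]
        exact hs
      · rcases (anc_nx hB).1 hs with h' | h'
        · left
          rw [h']
          exact hr
        · exact ih r s h h'
  intro r s t
  exact key t r s

/-- the child of a proper ancestor -/
lemma anc_child (hM : Mod 𝒮) (hBS : B ∈ 𝒮) (hB : AncRec B) :
    ∀ {s t : N}, pr s t ∈ B → s ≠ t → ∃ e, pr (nx s e) t ∈ B := by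
  have key : ∀ t : N, ∀ s, pr s t ∈ B → s ≠ t → ∃ e, pr (nx s e) t ∈ B := by
    refine t4_ind hM ?_ ?_ ?_
    · apply Ar.all
      apply Ar.imp
      · exact Ar.memP hBS (TmF.pr (.var 0) (.var 1))
      apply Ar.imp
      · exact Ar.ne (.var 0) (.var 1)
      apply Ar.ex
      exact Ar.memP hBS (TmF.pr (TmF.nx (.var 1) (.var 0)) (.var 2))
    · intro t h s hs hne
      exact absurd (t4_of_not_nx hB h hs) hne
    · intro t e ih s hs hne
      rcases (anc_nx hB).1 hs with h | h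
      · exact absurd h hne
      · by_cases hst : s = t
        · exact ⟨e, by rw [hst]; exact anc_refl hB _⟩
        · obtain ⟨e', he'⟩ := ih s h hst
          exact ⟨e', (anc_nx hB).2 (Or.inr he')⟩
  intro s t
  exact key t s

lemma anc_child_unique (hM : Mod 𝒮) (hBS : B ∈ 𝒮) (hB : AncRec B) :
    ∀ {s e e' t : N}, pr (nx s e) t ∈ B → pr (nx s e') t ∈ B → e = e' := by
  intro s e e' t h h'
  have aux : ∀ {a b : N}, pr (nx s a) (nx s b) ∈ B → a = b := by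
    intro a b hab
    rcases (anc_nx hB).1 hab with h1 | h1
    · exact (nx_inj.1 h1).2
    · exact absurd (anc_le hM hBS hB h1) (not_le.2 (lt_nx_left s a))
  rcases anc_total hM hBS hB h h' with h1 | h1
  · exact aux h1
  · exact (aux h1).symm

lemma ent_nx (hB : AncRec B) {s z v z' v' : N} :
    Ent B (nx s (pr z v)) z' v' ↔ (z' = z ∧ v' = v) ∨ Ent B s z' v' := by
  unfold Ent
  constructor
  · rintro ⟨t, ht⟩
    rcases (anc_nx hB).1 ht with h | h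
    · exact Or.inl (pr_inj.1 (nx_inj.1 h).2)
    · exact Or.inr ⟨t, h⟩
  · rintro (⟨rfl, rfl⟩ | ⟨t, ht⟩)
    · exact ⟨s, anc_refl hB _⟩
    · exact ⟨t, (anc_nx hB).2 (Or.inr ht)⟩

lemma ent_zero (hB : AncRec B) {z v : N} : ¬ Ent B 0 z v := by
  rintro ⟨t, ht⟩
  exact nx_ne_zero _ _ ((anc_zero hB).1 ht)

lemma ent_mono (hM : Mod 𝒮) (hBS : B ∈ 𝒮) (hB : AncRec B) {t s z v : N} (h : pr t s ∈ B)
    (he : Ent B t z v) : Ent B s z v := by
  obtain ⟨r, hr⟩ := he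
  exact ⟨r, anc_trans hM hBS hB hr h⟩

/-- an entry of `s` is smaller than `s` -/
lemma ent_lt (hM : Mod 𝒮) (hBS : B ∈ 𝒮) (hB : AncRec B) {s z v : N} (he : Ent B s z v) :
    z < s ∧ v < s := by
  obtain ⟨t, ht⟩ := he
  have h1 : nx t (pr z v) ≤ s := anc_le hM hBS hB ht
  have h2 : pr z v < nx t (pr z v) := lt_nx_right _ _
  exact ⟨lt_of_le_of_lt (le_pr_left z v) (lt_of_lt_of_le h2 h1),
    lt_of_le_of_lt (le_pr_right z v) (lt_of_lt_of_le h2 h1)⟩

lemma nxt_nx {s z v n : N} : Nxt (nx s (pr z v)) n ↔ n = z + 1 := by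
  unfold Nxt
  constructor
  · rintro (⟨h, -⟩ | ⟨t, z', v', h, hn⟩)
    · exact absurd h (nx_ne_zero _ _)
    · rw [hn, (pr_inj.1 (nx_inj.1 h).2).1]
  · intro h
    exact Or.inr ⟨s, z, v, rfl, h⟩

lemma nxt_zero {n : N} : Nxt (0 : N) n ↔ n = 0 := by
  unfold Nxt
  constructor
  · rintro (⟨-, h⟩ | ⟨t, z', v', h, -⟩)
    · exact h
    · exact absurd h.symm (nx_ne_zero _ _)
  · intro h
    exact Or.inl ⟨rfl, h⟩

lemma good_nx (hB : AncRec B) {s z v : N} (hs : Good B s) (hz : Nxt s z) :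
    Good B (nx s (pr z v)) := by
  refine ⟨(anc_nx hB).2 (Or.inr hs.1), ?_⟩
  intro t e h
  rcases (anc_nx hB).1 h with h | h
  · obtain ⟨rfl, rfl⟩ := nx_inj.1 h
    exact ⟨z, v, rfl, hz⟩
  · exact hs.2 t e h

lemma good_zero (hB : AncRec B) : Good B (0 : N) := by
  refine ⟨anc_refl hB 0, ?_⟩
  intro t e h
  exact absurd ((anc_zero hB).1 h) (nx_ne_zero _ _)

end

end Pool.Agent.Lib.MP_7de92b_lc
end

section

/-!
# T5: closed families satisfy arithmetical comprehension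
-/

set_option autoImplicit false
set_option linter.unusedSectionVars false

namespace Pool.Agent.Lib.MP_7de92b_lc

section

variable {N : Type} [CommSemiring N] [LinearOrder N] [IsStrictOrderedRing N] [Ari N]
  {𝒮 𝒞 : Set (Set N)}

/-- the code of the first `n` values of an environment -/
def cd : ℕ → (ℕ → N) → N
  | 0, _ => 0
  | n + 1, v => pr (v 0) (cd n (fun i => v (i + 1)))

lemma cd_cons (n : ℕ) (a : N) (v : ℕ → N) : cd (n + 1) (cons a v) = pr a (cd n v) := rfl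

lemma ClosedFam.compl (h : ClosedFam 𝒞) {X : Set N} (hX : X ∈ 𝒞) : {x | x ∉ X} ∈ 𝒞 := by
  have := h.nand X hX X hX
  convert this using 1
  ext x
  simp

lemma ClosedFam.inter (h : ClosedFam 𝒞) {X Y : Set N} (hX : X ∈ 𝒞) (hY : Y ∈ 𝒞) :
    {x | x ∈ X ∧ x ∈ Y} ∈ 𝒞 := by
  have := h.compl (h.nand X hX Y hY)
  convert this using 1
  ext x
  simp only [Set.mem_ofPred_eq]
  tauto

lemma ClosedFam.weak' (h : ClosedFam 𝒞) {X : Set N} (hX : X ∈ 𝒞) :
    {x | ∃ b y, x = pr b y ∧ y ∈ X} ∈ 𝒞 := by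
  have := h.weak _ (h.compl hX)
  convert this using 1
  ext x
  simp

lemma ClosedFam.drop' (h : ClosedFam 𝒞) {X : Set N} (hX : X ∈ 𝒞) :
    {x | ∃ u b e, x = pr u (pr b e) ∧ pr u e ∈ X} ∈ 𝒞 := by
  have := h.drop _ (h.compl hX)
  convert this using 1
  ext x
  simp

lemma ClosedFam.memb' (h : ClosedFam 𝒞) {X : Set N} (hX : X ∈ 𝒞) :
    {x | ∃ y e, x = pr y e ∧ y ∈ X} ∈ 𝒞 := by
  have := h.memb _ (h.compl hX)
  convert this using 1
  ext x
  simp

lemma ClosedFam.secn' (h : ClosedFam 𝒞) {X : Set N} (hX : X ∈ 𝒞) (c : N) :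
    {x | pr x c ∈ X} ∈ 𝒞 := by
  have := h.secn _ (h.compl hX) c
  convert this using 1
  ext x
  simp

lemma ClosedFam.proj (h : ClosedFam 𝒞) {X : Set N} (hX : X ∈ 𝒞) :
    {x | ∃ a, pr a x ∈ X} ∈ 𝒞 := by
  have := h.coproj _ (h.compl hX)
  convert this using 1
  ext x
  simp

/-- a relation is represented in the family -/
def Rp (𝒞 : Set (Set N)) (n : ℕ) (R : (ℕ → N) → Prop) : Prop :=
  ∃ G ∈ 𝒞, ∀ v, cd n v ∈ G ↔ R v

/-- a function is represented in the family -/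
def RpT (𝒞 : Set (Set N)) (n : ℕ) (t : (ℕ → N) → N) : Prop :=
  ∃ G ∈ 𝒞, ∀ y v, pr y (cd n v) ∈ G ↔ y = t v

lemma ClosedFam.rpT_var (h : ClosedFam 𝒞) (i : ℕ) : ∀ n, i + 1 ≤ n →
    RpT 𝒞 n (fun v => v i) := by
  induction i with
  | zero =>
    intro n hn
    obtain ⟨m, rfl⟩ : ∃ m, n = m + 1 := ⟨n - 1, by omega⟩
    refine ⟨_, h.keq, fun y v => ?_⟩
    change (∃ u e, pr y (pr (v 0) (cd m _)) = pr u (pr u e)) ↔ _
    constructor
    · rintro ⟨u, e, he⟩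
      rw [pr_inj, pr_inj] at he
      exact he.1.trans he.2.1.symm
    · intro hy
      have hy' : y = v 0 := hy
      exact ⟨v 0, _, by rw [hy']⟩
  | succ i ih =>
    intro n hn
    obtain ⟨m, rfl⟩ : ∃ m, n = m + 1 := ⟨n - 1, by omega⟩
    obtain ⟨G, hG, hGe⟩ := ih m (by omega)
    refine ⟨_, h.drop' hG, fun y v => ?_⟩
    rw [← hGe y (fun j => v (j + 1))]
    change (∃ u b e, pr y (pr (v 0) (cd m _)) = pr u (pr b e) ∧ pr u e ∈ G) ↔ _
    constructor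
    · rintro ⟨u, b, e, he, hm⟩
      rw [pr_inj, pr_inj] at he
      obtain ⟨rfl, -, rfl⟩ := he
      exact hm
    · intro hy
      exact ⟨y, v 0, _, rfl, hy⟩

lemma mem_drop {G : Set N} {a b e : N} :
    pr a (pr b e) ∈ {x | ∃ u b e, x = pr u (pr b e) ∧ pr u e ∈ G} ↔ pr a e ∈ G := by
  constructor
  · rintro ⟨u, b', e', he, hm⟩
    rw [pr_inj, pr_inj] at he
    obtain ⟨rfl, -, rfl⟩ := he
    exact hm
  · intro hm
    exact ⟨a, b, e, rfl, hm⟩

lemma mem_weak {G : Set N} {a e : N} :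
    pr a e ∈ {x | ∃ b y, x = pr b y ∧ y ∈ G} ↔ e ∈ G := by
  constructor
  · rintro ⟨b', e', he, hm⟩
    rw [pr_inj] at he
    obtain ⟨-, rfl⟩ := he
    exact hm
  · intro hm
    exact ⟨a, e, rfl, hm⟩

lemma mem_memb {G : Set N} {a e : N} :
    pr a e ∈ {x | ∃ y e, x = pr y e ∧ y ∈ G} ↔ a ∈ G := by
  constructor
  · rintro ⟨b', e', he, hm⟩
    rw [pr_inj] at he
    obtain ⟨rfl, -⟩ := he
    exact hm
  · intro hm
    exact ⟨a, e, rfl, hm⟩

/-- the operations on terms -/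
lemma ClosedFam.rpT_op (h : ClosedFam 𝒞) {f : N → N → N}
    (hf : {x : N | ∃ a b e, x = pr a (pr b (pr (f a b) e))} ∈ 𝒞) {n : ℕ} {s t : (ℕ → N) → N}
    (hs : RpT 𝒞 n s) (ht : RpT 𝒞 n t) : RpT 𝒞 n (fun v => f (s v) (t v)) := by
  obtain ⟨G, hG, hGe⟩ := hs
  obtain ⟨G', hG', hGe'⟩ := ht
  refine ⟨_, h.proj (h.proj (h.inter (h.inter (h.drop' (h.drop' hG)) (h.weak' (h.drop' hG')))
    hf)), fun y v => ?_⟩
  constructor
  · rintro ⟨b, a, ⟨h1, h2⟩, a', b', e, he⟩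
    rw [mem_drop, mem_drop, hGe] at h1
    rw [mem_weak, mem_drop, hGe'] at h2
    rw [pr_inj, pr_inj, pr_inj] at he
    obtain ⟨rfl, rfl, rfl, -⟩ := he
    rw [h1, h2]
  · rintro rfl
    refine ⟨t v, s v, ⟨?_, ?_⟩, s v, t v, cd n v, rfl⟩
    · rw [mem_drop, mem_drop, hGe]
    · rw [mem_weak, mem_drop, hGe']

lemma ClosedFam.rpT (h : ClosedFam 𝒞) {t : (ℕ → N) → N} (ht : TmF t) :
    ∃ n₀, ∀ n, n₀ ≤ n → RpT 𝒞 n t := by
  induction ht with
  | var i => exact ⟨i + 1, h.rpT_var i⟩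
  | const c =>
    refine ⟨0, fun n _ => ⟨_, h.kconst c, fun y v => ?_⟩⟩
    constructor
    · rintro ⟨e, he⟩
      rw [pr_inj] at he
      exact he.1
    · rintro rfl
      exact ⟨_, rfl⟩
  | add _ _ ih ih' =>
    obtain ⟨n, hn⟩ := ih
    obtain ⟨n', hn'⟩ := ih'
    refine ⟨max n n', fun m hm => ?_⟩
    exact h.rpT_op (f := fun a b => a + b) h.kadd (hn m (le_trans (le_max_left _ _) hm))
      (hn' m (le_trans (le_max_right _ _) hm))
  | mul _ _ ih ih' =>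
    obtain ⟨n, hn⟩ := ih
    obtain ⟨n', hn'⟩ := ih'
    refine ⟨max n n', fun m hm => ?_⟩
    exact h.rpT_op (f := fun a b => a * b) h.kmul (hn m (le_trans (le_max_left _ _) hm))
      (hn' m (le_trans (le_max_right _ _) hm))

lemma ClosedFam.rp (h : ClosedFam 𝒞) {R : (ℕ → N) → Set N → Prop} (hR : Ar 𝒞 R) {X : Set N}
    (hX : X ∈ 𝒞) : ∃ n₀, ∀ n, n₀ ≤ n → Rp 𝒞 n (fun v => R v X) := by
  have hmem : ∀ {t : (ℕ → N) → N} {Y : Set N}, TmF t → Y ∈ 𝒞 →
      ∃ n₀, ∀ n, n₀ ≤ n → Rp 𝒞 n (fun v => t v ∈ Y) := by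
    intro t Y ht hY
    obtain ⟨n, hn⟩ := h.rpT ht
    refine ⟨n, fun m hm => ?_⟩
    obtain ⟨G, hG, hGe⟩ := hn m hm
    refine ⟨_, h.proj (h.inter hG (h.memb' hY)), fun v => ?_⟩
    constructor
    · rintro ⟨a, h1, h2⟩
      rw [hGe] at h1
      rw [mem_memb] at h2
      change t v ∈ Y
      rwa [← h1]
    · intro hv
      refine ⟨t v, ?_, ?_⟩
      · rw [hGe]
      · rw [mem_memb]
        exact hv
  induction hR with
  | eq hs ht =>
    obtain ⟨n, hn⟩ := h.rpT hs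
    obtain ⟨n', hn'⟩ := h.rpT ht
    refine ⟨max n n', fun m hm => ?_⟩
    obtain ⟨G, hG, hGe⟩ := hn m (le_trans (le_max_left _ _) hm)
    obtain ⟨G', hG', hGe'⟩ := hn' m (le_trans (le_max_right _ _) hm)
    refine ⟨_, h.proj (h.inter hG hG'), fun v => ?_⟩
    constructor
    · rintro ⟨a, h1, h2⟩
      rw [hGe] at h1
      rw [hGe'] at h2
      exact h1.symm.trans h2
    · intro hv
      refine ⟨_, (hGe _ v).2 rfl, (hGe' _ v).2 hv⟩
  | lt hs ht =>
    obtain ⟨n, hn⟩ := h.rpT hs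
    obtain ⟨n', hn'⟩ := h.rpT ht
    refine ⟨max n n', fun m hm => ?_⟩
    obtain ⟨G, hG, hGe⟩ := hn m (le_trans (le_max_left _ _) hm)
    obtain ⟨G', hG', hGe'⟩ := hn' m (le_trans (le_max_right _ _) hm)
    refine ⟨_, h.proj (h.proj (h.inter (h.inter (h.drop' hG) (h.weak' hG')) h.klt)), fun v => ?_⟩
    constructor
    · rintro ⟨b, a, ⟨h1, h2⟩, a', b', e, he, hlt⟩
      rw [mem_drop, hGe] at h1
      rw [mem_weak, hGe'] at h2
      rw [pr_inj, pr_inj] at he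
      obtain ⟨rfl, rfl, -⟩ := he
      rw [h1, h2] at hlt
      exact hlt
    · intro hv
      refine ⟨_, _, ⟨?_, ?_⟩, _, _, cd m v, rfl, hv⟩
      · rw [mem_drop, hGe]
      · rw [mem_weak, hGe']
  | memP hY ht => exact hmem ht hY
  | memX ht => exact hmem ht hX
  | not _ ih =>
    obtain ⟨n, hn⟩ := ih
    refine ⟨n, fun m hm => ?_⟩
    obtain ⟨G, hG, hGe⟩ := hn m hm
    exact ⟨_, h.compl hG, fun v => not_congr (hGe v)⟩
  | and _ _ ih ih' =>
    obtain ⟨n, hn⟩ := ih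
    obtain ⟨n', hn'⟩ := ih'
    refine ⟨max n n', fun m hm => ?_⟩
    obtain ⟨G, hG, hGe⟩ := hn m (le_trans (le_max_left _ _) hm)
    obtain ⟨G', hG', hGe'⟩ := hn' m (le_trans (le_max_right _ _) hm)
    exact ⟨_, h.inter hG hG', fun v => and_congr (hGe v) (hGe' v)⟩
  | ex' _ ih =>
    obtain ⟨n, hn⟩ := ih
    refine ⟨n, fun m hm => ?_⟩
    obtain ⟨G, hG, hGe⟩ := hn (m + 1) (by omega)
    refine ⟨_, h.proj hG, fun v => ?_⟩
    constructor
    · rintro ⟨a, ha⟩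
      exact ⟨a, (hGe (cons a v)).1 ha⟩
    · rintro ⟨a, ha⟩
      exact ⟨a, (hGe (cons a v)).2 ha⟩

theorem ClosedFam.comp (h : ClosedFam 𝒞) {R : (ℕ → N) → Set N → Prop} (hR : Ar 𝒞 R)
    (v : ℕ → N) {X : Set N} (hX : X ∈ 𝒞) : {x : N | R (cons x v) X} ∈ 𝒞 := by
  obtain ⟨n, hn⟩ := h.rp hR hX
  obtain ⟨G, hG, hGe⟩ := hn (n + 1) (by omega)
  have := h.secn' hG (cd n v)
  convert this using 1
  ext x
  exact (hGe (cons x v)).symm

theorem ClosedFam.mod (h : ClosedFam 𝒞) (hM : Mod 𝒮) (hsub : 𝒞 ⊆ 𝒮) : Mod 𝒞 :=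
  ⟨⟨_, h.kconst 0⟩, fun X hX => hM.ind X (hsub hX), fun hR v _ hX => h.comp hR v hX⟩

/-- the sets coded by a set of a model are sets of the model -/
theorem Mod.secs_sub (hM : Mod 𝒮) {C : Set N} (hC : C ∈ 𝒮) : secs C ⊆ 𝒮 := by
  rintro _ ⟨k, rfl⟩
  exact hM.comp' (P := fun x => pr x k ∈ C) (Ar.memP hC (.pr (.var 0) (.const k)))

end

end Pool.Agent.Lib.MP_7de92b_lc
end

section

/-!
# T4: recursion
-/

set_option autoImplicit false
set_option linter.unusedSectionVars false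

namespace Pool.Agent.Lib.MP_7de92b_lc

section

variable {N : Type} [CommSemiring N] [LinearOrder N] [IsStrictOrderedRing N] [Ari N]
  {𝒮 : Set (Set N)} {B : Set N}

lemma t5_two {G : N → N → Prop} (hG : Ar 𝒮 (fun v _ => G (v 0) (v 1)))
    {s t : (ℕ → N) → N} (hs : TmF s) (ht : TmF t) : Ar 𝒮 (fun v _ => G (s v) (t v)) := by
  have hρ : ∀ i : ℕ, TmF ((fun i : ℕ => (Nat.casesOn i s (fun _ => t) : (ℕ → N) → N)) i) := by
    intro i
    cases i with
    | zero => exact hs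
    | succ j => exact ht
  exact hG.subst hρ

/-- the predicate of the sequences of the recursion -/
def T5P (B : Set N) (G' : N → N → Prop) (s : N) : Prop :=
  pr 0 s ∈ B ∧ ∀ t e, pr (nx t e) s ∈ B → ∃ z v, e = pr z v ∧ Nxt t z ∧ G' t v

lemma t5_arP (hBS : B ∈ 𝒮) {G' : N → N → Prop} (hG : Ar 𝒮 (fun v _ => G' (v 0) (v 1)))
    {s : (ℕ → N) → N} (hs : TmF s) : Ar 𝒮 (fun v _ => T5P B G' (s v)) := by
  unfold T5P
  have hs1 : TmF (fun v : ℕ → N => s (fun i => v (i + 1))) := hs.subst (fun i => .var (i + 1))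
  have hs2 : TmF (fun v : ℕ → N => s (fun i => v (i + 1 + 1))) := hs1.subst (fun i => .var (i + 1))
  refine Ar.and (Ar.memP hBS (TmF.pr (.const 0) hs)) ?_
  refine Ar.all ?_
  refine Ar.all ?_
  refine Ar.imp (Ar.memP hBS (TmF.pr (TmF.nx (.var 1) (.var 0)) hs2)) ?_
  refine Ar.ex ?_
  refine Ar.ex ?_
  refine Ar.and (Ar.eq (.var 2) (TmF.pr (.var 1) (.var 0))) ?_
  exact Ar.and (Ar.nxt (.var 3) (.var 1)) (t5_two hG (.var 3) (.var 0))

lemma t5_step (hB : AncRec B) {G' : N → N → Prop} {s n v : N} (hP : T5P B G' s) (hn : Nxt s n)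
    (hv : G' s v) : T5P B G' (nx s (pr n v)) := by
  refine ⟨(anc_nx hB).2 (Or.inr hP.1), fun t e h => ?_⟩
  rcases (anc_nx hB).1 h with h | h
  · obtain ⟨rfl, rfl⟩ := nx_inj.1 h
    exact ⟨n, v, rfl, hn, hv⟩
  · exact hP.2 t e h

lemma t5_unstep (hB : AncRec B) {G' : N → N → Prop} {s n v : N}
    (hP : T5P B G' (nx s (pr n v))) : T5P B G' s ∧ Nxt s n ∧ G' s v := by
  obtain ⟨z, w, hzw, hnz, hg⟩ := hP.2 s (pr n v) (anc_refl hB _)
  obtain ⟨rfl, rfl⟩ := pr_inj.1 hzw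
  refine ⟨⟨?_, fun t e h => hP.2 t e ((anc_nx hB).2 (Or.inr h))⟩, hnz, hg⟩
  rcases (anc_nx hB).1 hP.1 with h | h
  · exact absurd h.symm (nx_ne_zero _ _)
  · exact h

lemma t5_zero (hB : AncRec B) {G' : N → N → Prop} : T5P B G' 0 := by
  refine ⟨anc_refl hB 0, fun t e h => ?_⟩
  exact absurd ((anc_zero hB).1 h) (nx_ne_zero _ _)

lemma t5_succ_ne (n : N) : n + 1 ≠ 0 := by
  have h1 : (0 : N) ≤ n := Ari.zero_le' n
  have h2 : (0 : N) < n + 1 := (Ari.lt_succ' 0 n).2 h1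
  exact h2.ne'

lemma t5_succ_inj {m n : N} (h : m + 1 = n + 1) : m = n := by
  have h1 : m ≤ n := (Ari.lt_succ' m n).1 (h ▸ (Ari.lt_succ' m m).2 le_rfl)
  have h2 : n ≤ m := (Ari.lt_succ' n m).1 (h ▸ (Ari.lt_succ' n n).2 le_rfl)
  exact le_antisymm h1 h2

/-- Recursion: iterate `s ↦ nx s (pr n v)` with `G s v`. -/
theorem recur (hM : Mod 𝒮) (hBS : B ∈ 𝒮) (hB : AncRec B) {G : N → N → Prop}
    (hG : Ar 𝒮 (fun v _ => G (v 0) (v 1))) (htot : ∀ s, ∃ v, G s v) :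
    ∃ d : N → N, gr d ∈ 𝒮 ∧ d 0 = 0 ∧ ∀ n, ∃ v, G (d n) v ∧ d (n + 1) = nx (d n) (pr n v) := by
  classical
  let G' : N → N → Prop := fun s v => G s v ∧ ∀ w, G s w → v ≤ w
  have hG' : Ar 𝒮 (fun v _ => G' (v 0) (v 1)) := by
    refine Ar.and (t5_two hG (.var 0) (.var 1)) ?_
    refine Ar.all ?_
    exact Ar.imp (t5_two hG (.var 1) (.var 0)) (Ar.le (.var 2) (.var 0))
  have htot' : ∀ s, ∃ v, G' s v := by
    intro s
    obtain ⟨x, hx, hx'⟩ := hM.least' (P := fun v => G s v) (t5_two hG (.const s) (.var 0)) (htot s)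
    exact ⟨x, hx, hx'⟩
  have huniq : ∀ s v w, G' s v → G' s w → v = w := fun s v w hv hw =>
    le_antisymm (hv.2 w hw.1) (hw.2 v hv.1)
  have key : ∀ n : N, ∃ s, (T5P B G' s ∧ Nxt s n) ∧ ∀ s', (T5P B G' s' ∧ Nxt s' n) → s' = s := by
    refine hM.induct (P := fun n => ∃ s, (T5P B G' s ∧ Nxt s n) ∧
      ∀ s', (T5P B G' s' ∧ Nxt s' n) → s' = s) ?_ ?_ ?_
    · refine Ar.ex ?_
      refine Ar.and (Ar.and (t5_arP hBS hG' (.var 0)) (Ar.nxt (.var 0) (.var 1))) ?_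
      refine Ar.all ?_
      exact Ar.imp (Ar.and (t5_arP hBS hG' (.var 0)) (Ar.nxt (.var 0) (.var 2)))
        (Ar.eq (.var 0) (.var 1))
    · refine ⟨0, ⟨t5_zero hB, nxt_zero.2 rfl⟩, ?_⟩
      rintro s' ⟨_, h | ⟨t, z, v, _, h⟩⟩
      · exact h.1
      · exact absurd h.symm (t5_succ_ne z)
    · rintro n ⟨s, ⟨hP, hn⟩, hu⟩
      obtain ⟨v, hv⟩ := htot' s
      refine ⟨nx s (pr n v), ⟨t5_step hB hP hn hv, nxt_nx.2 rfl⟩, ?_⟩
      rintro s' ⟨hP', h | ⟨t, z, w, rfl, h⟩⟩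
      · exact absurd h.2 (t5_succ_ne n)
      · have hz : n = z := t5_succ_inj h
        subst hz
        obtain ⟨h1, h2, h3⟩ := t5_unstep hB hP'
        have h4 := hu t ⟨h1, h2⟩
        subst h4
        rw [huniq t v w hv h3]
  choose d hd hdu using key
  refine ⟨d, ?_, ?_, ?_⟩
  · refine hM.gr_mem ?_
    refine (Ar.and (t5_arP hBS hG' (.var 1)) (Ar.nxt (.var 1) (.var 0))).congr fun v X => ?_
    constructor
    · exact fun h => hdu _ _ h
    · intro h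
      rw [h]
      exact hd _
  · exact (hdu 0 0 ⟨t5_zero hB, nxt_zero.2 rfl⟩).symm
  · intro n
    obtain ⟨v, hv⟩ := htot' (d n)
    refine ⟨v, hv.1, ?_⟩
    exact (hdu (n + 1) _ ⟨t5_step hB (hd n).1 (hd n).2 hv, nxt_nx.2 rfl⟩).symm

/-- The structure of the sequence of initial segments of a function. -/
theorem seq_facts (hM : Mod 𝒮) (hBS : B ∈ 𝒮) (hB : AncRec B) {d : N → N} (hd : gr d ∈ 𝒮)
    (h0 : d 0 = 0) (h1 : ∀ n, ∃ v, d (n + 1) = nx (d n) (pr n v)) :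
    ∃ g : N → N, gr g ∈ 𝒮 ∧ (∀ n, d (n + 1) = nx (d n) (pr n (g n))) ∧
      (∀ n z v, Ent B (d n) z v ↔ z < n ∧ v = g z) ∧ (∀ n, Good B (d n)) ∧
      (∀ n z, Nxt (d n) z ↔ z = n) ∧ (∀ m n, pr (d m) (d n) ∈ B ↔ m ≤ n) := by
  choose g hg using h1
  have hgr : gr g ∈ 𝒮 := by
    refine hM.gr_mem ?_
    have h2 : Ar 𝒮 (fun v _ => d (v 0 + 1) = nx (d (v 0)) (pr (v 0) (v 1))) := by
      refine Ar.fn (P := fun v _ a => a = nx (d (v 0)) (pr (v 0) (v 1))) hd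
        (.add (.var 0) (.const 1)) ?_
      refine Ar.fn (P := fun w _ a => w 0 = nx a (pr (w 1) (w 2))) hd (.var 1) ?_
      exact Ar.eq (.var 1) (TmF.nx (.var 0) (TmF.pr (.var 2) (.var 3)))
    refine h2.congr fun v X => ?_
    rw [hg]
    constructor
    · intro h
      exact ((pr_inj.1 (nx_inj.1 h).2).2).symm
    · intro h
      rw [h]
  have hnxt : ∀ n z, Nxt (d n) z ↔ z = n := by
    intro n z
    rcases Ari.zero_or_succ' n with rfl | ⟨m, rfl⟩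
    · rw [h0]
      exact nxt_zero
    · rw [hg]
      exact nxt_nx
  have hinj : ∀ m n, d m = d n → m = n := by
    intro m n h
    have h2 := (hnxt m m).2 rfl
    rw [h] at h2
    exact (hnxt n m).1 h2
  refine ⟨g, hgr, hg, ?_, ?_, hnxt, ?_⟩
  · refine hM.induct (P := fun n => ∀ z v, Ent B (d n) z v ↔ z < n ∧ v = g z) ?_ ?_ ?_
    · refine Ar.all ?_
      refine Ar.all ?_
      refine Ar.iff ?_ ?_
      · refine Ar.fn (P := fun w _ a => Ent B a (w 1) (w 0)) hd (.var 2) ?_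
        exact Ar.ent (.const hBS) (.var 0) (.var 2) (.var 1)
      · refine Ar.and (Ar.lt (.var 1) (.var 2)) ?_
        refine Ar.fn (P := fun w _ a => w 0 = a) hgr (.var 1) ?_
        exact Ar.eq (.var 1) (.var 0)
    · intro z v
      rw [h0]
      constructor
      · intro h
        exact absurd h (ent_zero hB)
      · rintro ⟨h, _⟩
        exact absurd h (not_lt.2 (Ari.zero_le' z))
    · intro n ih z v
      rw [hg, ent_nx hB, ih, Ari.lt_succ']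
      constructor
      · rintro (⟨rfl, rfl⟩ | ⟨h, rfl⟩)
        · exact ⟨le_rfl, rfl⟩
        · exact ⟨h.le, rfl⟩
      · rintro ⟨h, rfl⟩
        rcases h.lt_or_eq with h | rfl
        · exact Or.inr ⟨h, rfl⟩
        · exact Or.inl ⟨rfl, rfl⟩
  · refine hM.induct (P := fun n => Good B (d n)) ?_ ?_ ?_
    · refine Ar.fn (P := fun _ _ a => Good B a) hd (.var 0) ?_
      exact Ar.good (.const hBS) (.var 0)
    · rw [h0]
      exact good_zero hB
    · intro n ih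
      rw [hg]
      exact good_nx hB ih ((hnxt n n).2 rfl)
  · intro m
    refine hM.induct (P := fun n => pr (d m) (d n) ∈ B ↔ m ≤ n) ?_ ?_ ?_
    · refine Ar.iff ?_ (Ar.le (.const m) (.var 0))
      refine Ar.fn (P := fun _ _ a => pr (d m) a ∈ B) hd (.var 0) ?_
      exact Ar.memP hBS (TmF.pr (.const (d m)) (.var 0))
    · rw [h0, anc_zero hB]
      constructor
      · intro h
        exact (hinj m 0 (h.trans h0.symm)).le
      · intro h
        have : m = 0 := le_antisymm h (Ari.zero_le' m)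
        rw [this, h0]
    · intro n ih
      rw [hg, anc_nx hB, ih, ← hg]
      constructor
      · rintro (h | h)
        · exact (hinj _ _ h).le
        · exact h.trans ((Ari.lt_succ' n n).2 le_rfl).le
      · intro h
        rcases h.lt_or_eq with h | rfl
        · exact Or.inr ((Ari.lt_succ' m n).1 h)
        · exact Or.inl rfl

end

end Pool.Agent.Lib.MP_7de92b_lc
end

section

/-!
# T6: well-orders
-/

set_option autoImplicit false
set_option linter.unusedSectionVars false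

namespace Pool.Agent.Lib.MP_7de92b_lc

section

variable {N : Type} [CommSemiring N] [LinearOrder N] [IsStrictOrderedRing N] [Ari N]
  {𝒮 : Set (Set N)} {B : Set N}

/-- nonempty definable subsets of the field of a well-order have a least element -/
theorem wo_min (hM : Mod 𝒮) (hBS : B ∈ 𝒮) (hB : AncRec B) {W : Set N} (hW : W ∈ 𝒮)
    (hWO : WO 𝒮 W) {A : Set N} (hA : A ∈ 𝒮) (hsub : ∀ a ∈ A, a ∈ fld W) (hne : ∃ a, a ∈ A) :
    ∃ a ∈ A, ∀ b ∈ A, pr a b ∈ W := by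
  by_contra hcon
  push Not at hcon
  have hlow : ∀ a ∈ A, ∃ b ∈ A, wlt W b a := by
    intro a ha
    obtain ⟨b, hb, hab⟩ := hcon a ha
    rcases hWO.1.total a b (hsub a ha) (hsub b hb) with h | h
    · exact absurd h hab
    · exact ⟨b, hb, h, hab⟩
  let G : N → N → Prop := fun s v => (s = 0 → v ∈ A) ∧
    ∀ t z u, s = nx t (pr z u) → u ∈ A → v ∈ A ∧ (pr v u ∈ W ∧ ¬ pr u v ∈ W)
  have hG : Ar 𝒮 (fun v _ => G (v 0) (v 1)) := by
    show Ar 𝒮 (fun v _ => (v 0 = 0 → v 1 ∈ A) ∧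
      ∀ t z u, v 0 = nx t (pr z u) → u ∈ A → v 1 ∈ A ∧ (pr (v 1) u ∈ W ∧ ¬ pr u (v 1) ∈ W))
    repeat' first
      | apply Ar.ex | apply Ar.all | apply Ar.and | apply Ar.or | apply Ar.iff | apply Ar.not
      | apply Ar.imp | apply Ar.eq | apply Ar.lt | apply Ar.le
      | refine Ar.memP (by assumption) ?_ | apply Ar.memX | apply TmF.pr | apply TmF.nx
      | apply TmF.add | apply TmF.mul | apply TmF.const | apply TmF.var
  have htot : ∀ s, ∃ v, G s v := by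
    intro s
    by_cases hs : s = 0
    · obtain ⟨a, ha⟩ := hne
      refine ⟨a, fun _ => ha, ?_⟩
      intro t z u hsu
      exact absurd (hsu.symm.trans hs) (nx_ne_zero _ _)
    · by_cases hex : ∃ t z u, s = nx t (pr z u) ∧ u ∈ A
      · obtain ⟨t, z, u, hsu, hu⟩ := hex
        obtain ⟨b, hb, hbu⟩ := hlow u hu
        refine ⟨b, fun h => absurd h hs, ?_⟩
        intro t' z' u' hsu' _
        have h1 := nx_inj.1 (hsu.symm.trans hsu')
        have h2 := pr_inj.1 h1.2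
        rw [← h2.2]
        exact ⟨hb, hbu.1, hbu.2⟩
      · refine ⟨0, fun h => absurd h hs, ?_⟩
        intro t z u hsu hu
        exact absurd ⟨t, z, u, hsu, hu⟩ hex
  obtain ⟨d, hd, hd0, hd1⟩ := recur hM hBS hB hG htot
  obtain ⟨g, hg, hdg, -, -, -, -⟩ := seq_facts hM hBS hB hd hd0
    (fun n => (hd1 n).imp fun v hv => hv.2)
  have hGg : ∀ n, G (d n) (g n) := by
    intro n
    obtain ⟨v, hv, hv2⟩ := hd1 n
    have h1 := nx_inj.1 (hv2.symm.trans (hdg n))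
    have h2 := pr_inj.1 h1.2
    rw [← h2.2]
    exact hv
  have hstep : ∀ n, g n ∈ A → g (n + 1) ∈ A ∧ (pr (g (n + 1)) (g n) ∈ W ∧
      ¬ pr (g n) (g (n + 1)) ∈ W) := by
    intro n hn
    exact (hGg (n + 1)).2 (d n) n (g n) (hdg n) hn
  have hgA : ∀ n, g n ∈ A := by
    refine hM.induct (P := fun n => g n ∈ A) ?_ ?_ ?_
    · exact Ar.fn (P := fun _ _ a => a ∈ A) hg (.var 0) (Ar.memP hA (.var 0))
    · exact (hGg 0).1 hd0
    · intro n hn
      exact (hstep n hn).1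
  exact hWO.2 ⟨g, hg, fun n => (hstep n (hgA n)).2⟩

private lemma mem_lexW_iff {W W' : Set N} {a b a' b' : N} :
    pr (pr a b) (pr a' b') ∈ lexW W W' ↔ b ∈ fld W' ∧ b' ∈ fld W' ∧
      (wlt W a a' ∨ (a = a' ∧ a ∈ fld W ∧ pr b b' ∈ W')) := by
  constructor
  · rintro ⟨x, y, x', y', h, h1, h2, h3⟩
    have e := pr_inj.1 h
    have e1 := pr_inj.1 e.1
    have e2 := pr_inj.1 e.2
    obtain ⟨rfl, rfl⟩ := e1
    obtain ⟨rfl, rfl⟩ := e2
    exact ⟨h1, h2, h3⟩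
  · rintro ⟨h1, h2, h3⟩
    exact ⟨a, b, a', b', rfl, h1, h2, h3⟩

private lemma mem_lexW_shape {W W' : Set N} {i j : N} (h : pr i j ∈ lexW W W') :
    (∃ a b, i = pr a b) ∧ ∃ a b, j = pr a b := by
  obtain ⟨x, y, x', y', h, -⟩ := h
  have e := pr_inj.1 h
  exact ⟨⟨x, y, e.1⟩, ⟨x', y', e.2⟩⟩

private lemma lexW_linOrd {W W' : Set N} (h : LinOrd W) (h' : LinOrd W') :
    LinOrd (lexW W W') := by
  refine ⟨?_, ?_, ?_, ?_⟩
  · intro i j hij
    obtain ⟨⟨a, b, rfl⟩, ⟨a', b', rfl⟩⟩ := mem_lexW_shape hij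
    rw [mem_fld_lexW h h', mem_fld_lexW h h']
    obtain ⟨h1, h2, h3⟩ := mem_lexW_iff.1 hij
    rcases h3 with h3 | ⟨rfl, h4, -⟩
    · have := h.wlt_fld h3
      exact ⟨⟨a, b, rfl, this.1, h1⟩, ⟨a', b', rfl, this.2, h2⟩⟩
    · exact ⟨⟨a, b, rfl, h4, h1⟩, ⟨a, b', rfl, h4, h2⟩⟩
  · intro i j k hij hjk
    obtain ⟨⟨a, b, rfl⟩, ⟨a', b', rfl⟩⟩ := mem_lexW_shape hij
    obtain ⟨-, ⟨a'', b'', rfl⟩⟩ := mem_lexW_shape hjk
    obtain ⟨h1, h2, h3⟩ := mem_lexW_iff.1 hij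
    obtain ⟨g1, g2, g3⟩ := mem_lexW_iff.1 hjk
    rw [mem_lexW_iff]
    refine ⟨h1, g2, ?_⟩
    rcases h3 with h3 | ⟨rfl, h4, h5⟩
    · rcases g3 with g3 | ⟨rfl, -, -⟩
      · exact Or.inl (h.wlt_trans h3 g3)
      · exact Or.inl h3
    · rcases g3 with g3 | ⟨rfl, -, g5⟩
      · exact Or.inl g3
      · exact Or.inr ⟨rfl, h4, h'.trans _ _ _ h5 g5⟩
  · intro i j hij hji
    obtain ⟨⟨a, b, rfl⟩, ⟨a', b', rfl⟩⟩ := mem_lexW_shape hij
    obtain ⟨h1, h2, h3⟩ := mem_lexW_iff.1 hij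
    obtain ⟨g1, g2, g3⟩ := mem_lexW_iff.1 hji
    rcases h3 with h3 | ⟨rfl, h4, h5⟩
    · rcases g3 with g3 | ⟨g3, -, -⟩
      · exact absurd g3.1 h3.2
      · rw [g3] at h3
        exact absurd h3 (h.wlt_irrefl _)
    · rcases g3 with g3 | ⟨-, -, g5⟩
      · exact absurd g3 (h.wlt_irrefl _)
      · rw [h'.antisymm _ _ h5 g5]
  · intro i j hi hj
    obtain ⟨a, b, rfl, ha, hb⟩ := (mem_fld_lexW h h').1 hi
    obtain ⟨a', b', rfl, ha', hb'⟩ := (mem_fld_lexW h h').1 hj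
    rw [mem_lexW_iff, mem_lexW_iff]
    rcases h.wlt_total ha ha' with h1 | rfl | h1
    · exact Or.inl ⟨hb, hb', Or.inl h1⟩
    · rcases h'.total b b' hb hb' with h2 | h2
      · exact Or.inl ⟨hb, hb', Or.inr ⟨rfl, ha, h2⟩⟩
      · exact Or.inr ⟨hb', hb, Or.inr ⟨rfl, ha, h2⟩⟩
    · exact Or.inr ⟨hb', hb, Or.inl h1⟩

theorem lexW_wo (hM : Mod 𝒮) (hBS : B ∈ 𝒮) (hB : AncRec B) {W W' : Set N} (hW : W ∈ 𝒮)
    (hW' : W' ∈ 𝒮) (hWO : WO 𝒮 W) (hWO' : WO 𝒮 W') : WO 𝒮 (lexW W W') := by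
  have h := hWO.1
  have h' := hWO'.1
  have hL := lexW_linOrd h h'
  refine ⟨hL, ?_⟩
  rintro ⟨f, hf, hdesc⟩
  have hffld : ∀ n, f n ∈ fld (lexW W W') := fun n => (hL.wlt_fld (hdesc n)).2
  -- first components
  have hA1 : {a | ∃ n b, pr n (pr a b) ∈ gr f} ∈ 𝒮 := by
    generalize gr f = F at hf
    refine hM.comp' (P := fun a => ∃ n b, pr n (pr a b) ∈ F) ?_
    repeat' first
      | apply Ar.ex | apply Ar.all | apply Ar.and | apply Ar.or | apply Ar.iff | apply Ar.not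
      | apply Ar.imp | apply Ar.eq | apply Ar.lt | apply Ar.le
      | refine Ar.memP (by assumption) ?_ | apply Ar.memX | apply TmF.pr | apply TmF.nx
      | apply TmF.add | apply TmF.mul | apply TmF.const | apply TmF.var
  have hkey : ∀ n a b, pr n (pr a b) ∈ gr f → a ∈ fld W ∧ b ∈ fld W' := by
    intro n a b hn
    rw [mem_gr] at hn
    have := hffld n
    rw [← hn] at this
    obtain ⟨x, y, hxy, hx, hy⟩ := (mem_fld_lexW h h').1 this
    obtain ⟨rfl, rfl⟩ := pr_inj.1 hxy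
    exact ⟨hx, hy⟩
  have hex : ∀ n, ∃ a b, pr n (pr a b) ∈ gr f := by
    intro n
    obtain ⟨x, y, hxy, hx, hy⟩ := (mem_fld_lexW h h').1 (hffld n)
    exact ⟨x, y, mem_gr.2 hxy.symm⟩
  obtain ⟨a, ⟨n1, b1, hn1⟩, hamin⟩ := wo_min hM hBS hB hW hWO hA1
    (by rintro a ⟨n, b, hn⟩; exact (hkey n a b hn).1)
    (by obtain ⟨a, b, hab⟩ := hex 0; exact ⟨a, 0, b, hab⟩)
  have hA2 : {b | ∃ n, pr n (pr a b) ∈ gr f} ∈ 𝒮 := by
    generalize gr f = F at hf
    refine hM.comp' (P := fun b => ∃ n, pr n (pr a b) ∈ F) ?_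
    repeat' first
      | apply Ar.ex | apply Ar.all | apply Ar.and | apply Ar.or | apply Ar.iff | apply Ar.not
      | apply Ar.imp | apply Ar.eq | apply Ar.lt | apply Ar.le
      | refine Ar.memP (by assumption) ?_ | apply Ar.memX | apply TmF.pr | apply TmF.nx
      | apply TmF.add | apply TmF.mul | apply TmF.const | apply TmF.var
  obtain ⟨b, ⟨n, hn⟩, hbmin⟩ := wo_min hM hBS hB hW' hWO' hA2
    (by rintro b ⟨n, hn⟩; exact (hkey n a b hn).2) ⟨b1, n1, hn1⟩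
  obtain ⟨a', b', hn'⟩ := hex (n + 1)
  have hd := hdesc n
  rw [← mem_gr.1 hn, ← mem_gr.1 hn', wlt_lexW h h'] at hd
  obtain ⟨-, -, h3⟩ := hd
  rcases h3 with h3 | ⟨rfl, -, h3⟩
  · exact h3.2 (hamin a' ⟨n + 1, b', hn'⟩)
  · exact h3.2 (hbmin b' ⟨n + 1, hn'⟩)

end

end Pool.Agent.Lib.MP_7de92b_lc
end

section

/-!
# T14: the Kleene-Brouwer order
-/

set_option autoImplicit false
set_option linter.unusedSectionVars false

namespace Pool.Agent.Lib.MP_7de92b_lc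

section

variable {N : Type} [CommSemiring N] [LinearOrder N] [IsStrictOrderedRing N] [Ari N]
  {𝒮 : Set (Set N)} {P : Set N}

/-! ### transitivity and trichotomy on the sequences -/

section anc

variable {B : Set N}

private lemma t15_up (hM : Mod 𝒮) (hBS : B ∈ 𝒮) (hB : AncRec B) {u a s : N}
    (h : pr (nx u a) s ∈ B) : pr u s ∈ B :=
  anc_trans hM hBS hB ((anc_nx hB).2 (Or.inr (anc_refl hB u))) h

private lemma t15_lt (hM : Mod 𝒮) (hBS : B ∈ 𝒮) (hB : AncRec B) {u a s : N}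
    (h : pr (nx u a) s ∈ B) : u < s :=
  lt_of_lt_of_le (lt_nx_left u a) (anc_le hM hBS hB h)

lemma t15_kBlt_irrefl (hM : Mod 𝒮) (hBS : B ∈ 𝒮) (hB : AncRec B) {s : N} : ¬ KBlt B s s := by
  rintro (⟨_, h⟩ | ⟨u, a, a', haa, h, h'⟩)
  · exact h rfl
  · exact absurd (anc_child_unique hM hBS hB h h') (ne_of_lt haa)

lemma t15_kBlt_trans (hM : Mod 𝒮) (hBS : B ∈ 𝒮) (hB : AncRec B) {b c d : N} (h1 : KBlt B b c)
    (h2 : KBlt B c d) : KBlt B b d := by
  rcases h1 with ⟨h1, n1⟩ | ⟨u, a, a', haa, h1, h1'⟩ <;>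
    rcases h2 with ⟨h2, n2⟩ | ⟨w, e, e', hee, h2, h2'⟩
  · refine Or.inl ⟨anc_trans hM hBS hB h2 h1, ?_⟩
    intro hdb
    subst hdb
    exact n1 (le_antisymm (anc_le hM hBS hB h1) (anc_le hM hBS hB h2))
  · exact Or.inr ⟨w, e, e', hee, anc_trans hM hBS hB h2 h1, h2'⟩
  · rcases anc_total hM hBS hB h2 h1' with h | h
    · rcases (anc_nx hB).1 h with h | h
      · exact Or.inr ⟨u, a, a', haa, h1, by rw [h]; exact anc_refl hB _⟩
      · refine Or.inl ⟨anc_trans hM hBS hB h (t15_up hM hBS hB h1), ?_⟩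
        intro hdb
        subst hdb
        exact absurd (t15_lt hM hBS hB h1) (not_lt.2 (anc_le hM hBS hB h))
    · exact Or.inr ⟨u, a, a', haa, h1, h⟩
  · rcases anc_total hM hBS hB h1' h2 with h | h
    · rcases (anc_nx hB).1 h with h | h
      · obtain ⟨rfl, rfl⟩ := nx_inj.1 h
        exact Or.inr ⟨u, a, e', lt_trans haa hee, h1, h2'⟩
      · exact Or.inr ⟨u, a, a', haa, h1, anc_trans hM hBS hB h (t15_up hM hBS hB h2')⟩
    · rcases (anc_nx hB).1 h with h | h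
      · obtain ⟨rfl, rfl⟩ := nx_inj.1 h
        exact Or.inr ⟨w, a, e', lt_trans haa hee, h1, h2'⟩
      · exact Or.inr ⟨w, e, e', hee, anc_trans hM hBS hB h (t15_up hM hBS hB h1), h2'⟩

lemma t15_kBlt_total (hM : Mod 𝒮) (hBS : B ∈ 𝒮) (hB : AncRec B) {b : N} (hb : pr 0 b ∈ B) :
    ∀ c : N, pr 0 c ∈ B → b = c ∨ KBlt B b c ∨ KBlt B c b := by
  refine hM.strong' (P := fun c => pr 0 c ∈ B → b = c ∨ KBlt B b c ∨ KBlt B c b) ?_ ?_
  · exact Ar.imp (Ar.memP hBS (TmF.pr (TmF.const 0) (TmF.var 0)))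
      (Ar.or (Ar.eq (TmF.const b) (TmF.var 0))
        (Ar.or (Ar.kBlt (.const hBS) (TmF.const b) (TmF.var 0))
          (Ar.kBlt (.const hBS) (TmF.var 0) (TmF.const b))))
  · intro c ih hc
    rcases (hB 0 c).1 hc with h0 | ⟨c', e, rfl, hc'⟩
    · subst h0
      by_cases h : b = 0
      · exact Or.inl h
      · exact Or.inr (Or.inl (Or.inl ⟨hb, fun e => h e.symm⟩))
    · have hcc : pr c' (nx c' e) ∈ B := (anc_nx hB).2 (Or.inr (anc_refl hB c'))
      rcases ih c' (lt_nx_left c' e) hc' with h | (⟨h, n⟩ | ⟨u, a, a', haa, h, h'⟩) |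
        (⟨h, n⟩ | ⟨u, a, a', haa, h, h'⟩)
      · subst h
        exact Or.inr (Or.inr (Or.inl ⟨hcc, ne_of_lt (lt_nx_left b e)⟩))
      · obtain ⟨e', he'⟩ := anc_child hM hBS hB h n
        rcases lt_trichotomy e e' with hlt | heq | hgt
        · exact Or.inr (Or.inr (Or.inr ⟨c', e, e', hlt, anc_refl hB _, he'⟩))
        · subst heq
          by_cases hbc : nx c' e = b
          · exact Or.inl hbc.symm
          · exact Or.inr (Or.inl (Or.inl ⟨he', hbc⟩))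
        · exact Or.inr (Or.inl (Or.inr ⟨c', e', e, hgt, he', anc_refl hB _⟩))
      · exact Or.inr (Or.inl (Or.inr ⟨u, a, a', haa, h, anc_trans hM hBS hB h' hcc⟩))
      · refine Or.inr (Or.inr (Or.inl ⟨anc_trans hM hBS hB h hcc, ?_⟩))
        exact ne_of_lt (lt_of_le_of_lt (anc_le hM hBS hB h) (lt_nx_left c' e))
      · exact Or.inr (Or.inr (Or.inr ⟨u, a, a', haa, anc_trans hM hBS hB h hcc, h'⟩))

end anc

private lemma t15_sec (hM : Mod 𝒮) (hP : P ∈ 𝒮) (k : N) : sec P k ∈ 𝒮 :=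
  hM.comp' (P := fun x => pr x k ∈ P) (Ar.memP hP (TmF.pr (TmF.var 0) (TmF.const k)))

private lemma t15_succ_ne (b : N) : b + 1 ≠ 0 := by
  have h1 : 0 ≤ b := Ari.zero_le' b
  have h2 : b < b + 1 := (Ari.lt_succ' b b).2 le_rfl
  exact ne_of_gt (lt_of_le_of_lt h1 h2)

lemma t15_mem_kbW {β γ : N} :
    pr β γ ∈ kbW P ↔ KF P β ∧ KF P γ ∧ (β = γ ∨ KL P β γ) := by
  constructor
  · rintro ⟨β', γ', h, h1, h2, h3⟩
    obtain ⟨rfl, rfl⟩ := pr_inj.1 h
    exact ⟨h1, h2, h3⟩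
  · rintro ⟨h1, h2, h3⟩
    exact ⟨β, γ, rfl, h1, h2, h3⟩

/-- T11a -/
theorem kbW_mem (hM : Mod 𝒮) (hP : P ∈ 𝒮) : kbW P ∈ 𝒮 := by
  refine hM.comp' (P := fun x => ∃ β γ, x = pr β γ ∧ KF P β ∧ KF P γ ∧ (β = γ ∨ KL P β γ)) ?_
  refine Ar.ex (Ar.ex (Ar.and (Ar.eq (TmF.var 2) (TmF.pr (TmF.var 1) (TmF.var 0)))
    (Ar.and (Ar.kF (.const hP) (TmF.var 1)) (Ar.and (Ar.kF (.const hP) (TmF.var 0))
      (Ar.or (Ar.eq (TmF.var 1) (TmF.var 0)) (Ar.kL (.const hP) (TmF.var 1) (TmF.var 0)))))))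

private lemma t15_root (hFP : FP P) {b : N} (hb : pr b (num 1) ∈ P) :
    pr 0 b ∈ sec P (num 2) := ((hFP.2 b).1 hb).1.1

lemma t15_kl_irrefl (hM : Mod 𝒮) (hP : P ∈ 𝒮) (hFP : FP P) {β : N} : ¬ KL P β β := by
  rintro (⟨h1, h2⟩ | ⟨b, c, h1, h2, h3⟩)
  · exact h2 h1
  · have : b = c := add_right_cancel (h1.symm.trans h2)
    subst this
    exact t15_kBlt_irrefl hM (t15_sec hM hP _) hFP.1 h3

lemma t15_kl_trans (hM : Mod 𝒮) (hP : P ∈ 𝒮) (hFP : FP P) {β γ δ : N} (h : KL P β γ)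
    (h' : KL P γ δ) : KL P β δ := by
  rcases h with ⟨h1, h2⟩ | ⟨b, c, h1, h2, h3⟩ <;> rcases h' with ⟨h1', h2'⟩ | ⟨b', c', h1', h2', h3'⟩
  · exact absurd h1' h2
  · exact Or.inl ⟨h1, by rw [h2']; exact t15_succ_ne c'⟩
  · exact absurd (h2.symm.trans h1') (t15_succ_ne c)
  · have : c = b' := add_right_cancel (h2.symm.trans h1')
    subst this
    exact Or.inr ⟨b, c', h1, h2', t15_kBlt_trans hM (t15_sec hM hP _) hFP.1 h3 h3'⟩

/-- T11b -/
theorem kbW_lin (hM : Mod 𝒮) (hP : P ∈ 𝒮) (hFP : FP P) : LinOrd (kbW P) where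
  mem_fld := by
    intro β γ h
    have h' := t15_mem_kbW.1 h
    exact ⟨t15_mem_kbW.2 ⟨h'.1, h'.1, Or.inl rfl⟩, t15_mem_kbW.2 ⟨h'.2.1, h'.2.1, Or.inl rfl⟩⟩
  trans := by
    intro β γ δ h1 h2
    obtain ⟨a1, a2, a3⟩ := t15_mem_kbW.1 h1
    obtain ⟨b1, b2, b3⟩ := t15_mem_kbW.1 h2
    refine t15_mem_kbW.2 ⟨a1, b2, ?_⟩
    rcases a3 with rfl | a3
    · exact b3
    · rcases b3 with rfl | b3
      · exact Or.inr a3
      · exact Or.inr (t15_kl_trans hM hP hFP a3 b3)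
  antisymm := by
    intro β γ h1 h2
    obtain ⟨a1, a2, a3⟩ := t15_mem_kbW.1 h1
    obtain ⟨b1, b2, b3⟩ := t15_mem_kbW.1 h2
    rcases a3 with a3 | a3
    · exact a3
    · rcases b3 with b3 | b3
      · exact b3.symm
      · exact absurd (t15_kl_trans hM hP hFP a3 b3) (t15_kl_irrefl hM hP hFP)
  total := by
    intro β γ h1 h2
    have a1 := (t15_mem_kbW.1 h1).1
    have a2 := (t15_mem_kbW.1 h2).1
    by_cases h : β = γ
    · exact Or.inl (t15_mem_kbW.2 ⟨a1, a2, Or.inl h⟩)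
    by_cases h0 : β = 0
    · exact Or.inl (t15_mem_kbW.2 ⟨a1, a2, Or.inr (Or.inl ⟨h0, fun e => h (h0.trans e.symm)⟩)⟩)
    by_cases h0' : γ = 0
    · exact Or.inr (t15_mem_kbW.2 ⟨a2, a1, Or.inr (Or.inl ⟨h0', h0⟩)⟩)
    obtain ⟨b, hb, hbT⟩ := a1.resolve_left h0
    obtain ⟨c, hc, hcT⟩ := a2.resolve_left h0'
    rcases t15_kBlt_total hM (t15_sec hM hP _) hFP.1 (t15_root hFP hbT) c (t15_root hFP hcT) with
      e | e | e
    · exact absurd (by rw [hb, hc, e]) h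
    · exact Or.inl (t15_mem_kbW.2 ⟨a1, a2, Or.inr (Or.inr ⟨b, c, hb, hc, e⟩)⟩)
    · exact Or.inr (t15_mem_kbW.2 ⟨a2, a1, Or.inr (Or.inr ⟨c, b, hc, hb, e⟩)⟩)

/-- T11c -/
lemma mem_fld_kbW {β : N} : β ∈ fld (kbW P) ↔ KF P β :=
  ⟨fun h => (t15_mem_kbW.1 h).1, fun h => t15_mem_kbW.2 ⟨h, h, Or.inl rfl⟩⟩

/-- T11d -/
lemma wlt_kbW (hM : Mod 𝒮) (hP : P ∈ 𝒮) (hFP : FP P) {β γ : N} :
    wlt (kbW P) β γ ↔ KF P β ∧ KF P γ ∧ KL P β γ := by
  constructor
  · rintro ⟨h1, h2⟩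
    obtain ⟨a1, a2, a3⟩ := t15_mem_kbW.1 h1
    refine ⟨a1, a2, a3.resolve_left ?_⟩
    rintro rfl
    exact h2 h1
  · rintro ⟨a1, a2, a3⟩
    refine ⟨t15_mem_kbW.2 ⟨a1, a2, Or.inr a3⟩, fun h => ?_⟩
    rcases (t15_mem_kbW.1 h).2.2 with h | h
    · subst h
      exact t15_kl_irrefl hM hP hFP a3
    · exact t15_kl_irrefl hM hP hFP (t15_kl_trans hM hP hFP a3 h)

/-- T11e -/
lemma kl_of_prec {β γ : N} (h : Prec P γ β) : KF P γ ∧ KF P β ∧ KL P γ β := by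
  obtain ⟨b, hb, hbT, h | ⟨c, hc, hcT, hbc, hne⟩⟩ := h
  · exact ⟨Or.inl h, Or.inr ⟨b, hb, hbT⟩, Or.inl ⟨h, by rw [hb]; exact t15_succ_ne b⟩⟩
  · exact ⟨Or.inr ⟨c, hc, hcT⟩, Or.inr ⟨b, hb, hbT⟩, Or.inr ⟨c, b, hc, hb, Or.inl ⟨hbc, hne⟩⟩⟩

end

end Pool.Agent.Lib.MP_7de92b_lc
end

section

/-!
# T18: solutions by arithmetical transfinite recursion
-/

set_option autoImplicit false
set_option linter.unusedSectionVars false

namespace Pool.Agent.Lib.MP_7de92b_lc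

section

variable {N : Type} [CommSemiring N] [LinearOrder N] [IsStrictOrderedRing N] [Ari N]
  {𝒮 : Set (Set N)} {P : Set N}

/-- T13 -/
theorem solve (hA : ATR0 𝒮) (hM : Mod 𝒮) {W : Set N} (hW : W ∈ 𝒮) (hWO : WO 𝒮 W) {ρ : N → N}
    (hρ : gr ρ ∈ 𝒮) (hρW : ∀ z, ρ z ∈ fld W) {Rl : N → N → Prop}
    (hR : Ar 𝒮 (fun v _ => Rl (v 0) (v 1))) (hdec : ∀ z p, Rl z p → wlt W (ρ p) (ρ z)) :
    ∃ S ∈ 𝒮, ∀ z, z ∈ S ↔ ∃ p, Rl z p ∧ p ∉ S := by
  have hL := hWO.1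
  have hfld : ∀ {t : (ℕ → N) → N}, TmF t → Ar 𝒮 (fun v _ => t v ∈ fld W) := fun ht =>
    (Ar.memP hW (ht.pr ht)).congr fun _ _ => Iff.rfl
  have hwlt : ∀ {s t : (ℕ → N) → N}, TmF s → TmF t → Ar 𝒮 (fun v _ => wlt W (s v) (t v)) :=
    fun hs ht => (Ar.memP hW (hs.pr ht)).and (Ar.memP hW (ht.pr hs)).not
  have hR' : Ar 𝒮 (fun v X => v 0 = 0 ∨ ∃ z w, v 0 = z + 1 ∧ w ∈ fld W ∧
      (∀ j, wlt W j w ↔ pr 0 j ∈ X) ∧ pr z w ∈ gr ρ ∧
        ∃ p, Rl z p ∧ ¬ ∃ w', pr (p + 1) w' ∈ X) := by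
    refine Ar.or (.eq (.var 0) (.const 0)) (Ar.ex (Ar.ex (Ar.and ?_ (Ar.and ?_ (Ar.and ?_
      (Ar.and ?_ (Ar.ex (Ar.and ?_ (Ar.not (Ar.ex ?_)))))))))) 
    · exact .eq (.var 2) ((TmF.var 1).add (.const 1))
    · exact hfld (.var 0)
    · exact Ar.all (Ar.iff (hwlt (.var 0) (.var 1)) (Ar.memX (.pr (.const 0) (.var 0))))
    · exact Ar.memP hρ (.pr (.var 1) (.var 0))
    · exact hR.subst (ρ := fun i w => Nat.casesOn i (w 2) (fun _ => w 0)) (by
        intro i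
        cases i with
        | zero => exact .var 2
        | succ j => exact .var 0)
    · exact Ar.memX (.pr ((TmF.var 1).add (.const 1)) (.var 0))
  obtain ⟨Y, hY, hYe⟩ := hA.iter hR' (fun _ => 0) hW hWO
  have hs0 : ∀ z : N, z + 1 ≠ 0 := fun z => by
    have := (Ari.lt_succ' z z).2 le_rfl
    exact ne_of_gt (lt_of_le_of_lt (Ari.zero_le' z) this)
  have hsinj : ∀ {z z' : N}, z + 1 = z' + 1 → z = z' := fun h => add_right_cancel h
  have hcut : ∀ {k i j : N}, pr k i ∈ cut W Y j ↔ pr k i ∈ Y ∧ wlt W i j := by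
    intro k i j
    constructor
    · rintro ⟨h1, m, i', he, hi⟩
      rw [pr_inj] at he
      obtain ⟨rfl, rfl⟩ := he
      exact ⟨h1, hi⟩
    · rintro ⟨h1, h2⟩
      exact ⟨h1, k, i, rfl, h2⟩
  have h0 : ∀ j, j ∈ fld W → pr 0 j ∈ Y := by
    intro j hj
    rw [hYe]
    exact ⟨0, j, rfl, hj, Or.inl rfl⟩
  have h0' : ∀ i j, pr 0 i ∈ cut W Y j ↔ wlt W i j := by
    intro i j
    rw [hcut]
    exact ⟨fun h => h.2, fun h => ⟨h0 i (hL.wlt_fld h).1, h⟩⟩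
  have h1 : ∀ z j, pr (z + 1) j ∈ Y ↔ j = ρ z ∧
      ∃ p, Rl z p ∧ ¬ ∃ w', pr (p + 1) w' ∈ cut W Y (ρ z) := by
    intro z j
    rw [hYe]
    constructor
    · rintro ⟨k, j', he, hjW, hk⟩
      rw [pr_inj] at he
      obtain ⟨rfl, rfl⟩ := he
      rcases hk with hk | ⟨z', w, hz', hwW, hw, hgr, p, hp, hno⟩
      · exact absurd hk (hs0 z)
      · have hz : z = z' := hsinj hz'
        subst hz
        have hjw : j = w := by
          simp only [h0'] at hw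
          rcases hL.wlt_total hjW hwW with h | h | h
          · exact absurd ((hw j).1 h) (hL.wlt_irrefl j)
          · exact h
          · exact absurd ((hw w).2 h) (hL.wlt_irrefl w)
        subst hjw
        have hjρ : j = ρ z := mem_gr.1 hgr
        subst hjρ
        exact ⟨rfl, p, hp, hno⟩
    · rintro ⟨rfl, p, hp, hno⟩
      refine ⟨z + 1, ρ z, rfl, hρW z, Or.inr ⟨z, ρ z, rfl, hρW z, ?_, mem_gr.2 rfl, p, hp, hno⟩⟩
      intro i
      rw [h0']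
  refine ⟨{z | pr (z + 1) (ρ z) ∈ Y}, hM.comp' (P := fun z => pr (z + 1) (ρ z) ∈ Y) ?_, ?_⟩
  · refine Ar.fn (P := fun w _ a => pr (w 0 + 1) a ∈ Y) hρ (.var 0) ?_
    exact Ar.memP hY (.pr ((TmF.var 1).add (.const 1)) (.var 0))
  · intro z
    change pr (z + 1) (ρ z) ∈ Y ↔ ∃ p, Rl z p ∧ ¬ pr (p + 1) (ρ p) ∈ Y
    rw [h1]
    simp only [true_and]
    refine exists_congr fun p => and_congr_right fun hp => not_congr ?_
    constructor
    · rintro ⟨w', hw'⟩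
      rw [hcut] at hw'
      have := ((h1 p w').1 hw'.1).1
      rw [← this]
      exact hw'.1
    · intro h
      exact ⟨ρ p, hcut.2 ⟨h, hdec z p hp⟩⟩

end

end Pool.Agent.Lib.MP_7de92b_lc
end
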